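import Pool.Agent.H538R3.QF.Defs

/-!
# Q1: pivots (helper771)
-/

set_option autoImplicit false

open Finset

namespace Pool.Agent.H538R3.QF

/-- TASK Q1 (QF/Pivot.lean): pivots. -/
theorem pivot {F ι : Type} [Field F] [Fintype ι] [DecidableEq ι] (W : Submodule F (ι → F)) :
    ∃ J : Finset ι, J.card = Module.finrank F W ∧ ∀ y ∈ W, (∀ j ∈ J, y j = 0) → y = 0 := by
  classical
  let f : ι → Module.Dual F W := fun j => (LinearMap.proj j) ∘ₗ W.subtype
  obtain ⟨κ, a, ha, hspan, hli⟩ := exists_linearIndependent' F f
  haveI : Fintype κ := Fintype.ofInjective a ha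
  have hsep : ∀ y : W, (∀ k, (y : ι → F) (a k) = 0) → y = 0 := by
    intro y hy
    have h1 : ∀ φ ∈ Submodule.span F (Set.range (f ∘ a)), φ y = 0 := by
      intro φ hφ
      induction hφ using Submodule.span_induction with
      | mem φ h =>
        obtain ⟨k, rfl⟩ := h
        exact hy k
      | zero => rfl
      | add φ ψ _ _ h1 h2 => rw [LinearMap.add_apply, h1, h2, add_zero]
      | smul c φ _ h => rw [LinearMap.smul_apply, h, smul_zero]
    rw [hspan] at h1
    apply Subtype.ext
    funext j
    exact h1 (f j) (Submodule.subset_span ⟨j, rfl⟩)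
  have c1 : Fintype.card κ ≤ Module.finrank F W := by
    have := hli.fintype_card_le_finrank
    rwa [Subspace.dual_finrank_eq] at this
  have c2 : Module.finrank F W ≤ Fintype.card κ := by
    let g : W →ₗ[F] (κ → F) := LinearMap.pi fun k => f (a k)
    have hg : Function.Injective g := by
      rw [injective_iff_map_eq_zero]
      intro y hy
      exact hsep y fun k => congrFun hy k
    have := LinearMap.finrank_le_finrank_of_injective hg
    rwa [Module.finrank_fintype_fun_eq_card] at this
  refine ⟨univ.image a, ?_, ?_⟩
  · rw [card_image_of_injective _ ha, card_univ]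
    exact le_antisymm c1 c2
  · intro y hy h
    have := hsep ⟨y, hy⟩ fun k => h (a k) (mem_image_of_mem a (mem_univ k))
    exact congrArg Subtype.val this

end Pool.Agent.H538R3.QF
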