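import Pool.Agent.H538R3.QF.Defs
import Pool.Agent.H538R3.QF.Pivot

/-!
# Quadratic identities over `F_2[X]`: vectors of polynomials in a subspace (task Q4)
-/

set_option autoImplicit false

open Finset

namespace Pool.Agent.H538R3.QF

theorem pol_injective' {b : ℕ} : Function.Injective (pol (b := b)) := by
  intro x y h
  have h1 : (Polynomial.degreeLTEquiv (ZMod 2) b).symm x =
      (Polynomial.degreeLTEquiv (ZMod 2) b).symm y := Subtype.ext h
  exact (Polynomial.degreeLTEquiv (ZMod 2) b).symm.injective h1

theorem toK_apply_injective' {m b : ℕ} {y y' : Co m b} (p : Ix m) (h : toK y p = toK y' p) :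
    y p = y' p := by
  have h1 : pol (y p) = pol (y' p) := IsFractionRing.injective (Polynomial (ZMod 2)) K h
  exact pol_injective' h1

open Classical in
/-- TASK Q4: the number of vectors of polynomials in a subspace. -/
theorem card_in {m b : ℕ} (W : Submodule K (Ix m → K)) :
    (univ.filter (fun y : Co m b => toK y ∈ W)).card ≤ 2 ^ (b * Module.finrank K W) := by
  obtain ⟨J, hJ, h0⟩ := pivot W
  have hinj : Set.InjOn (fun (y : Co m b) (j : {j // j ∈ J}) => y j.1)
      ((univ.filter (fun y : Co m b => toK y ∈ W) : Finset (Co m b)) : Set (Co m b)) := by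
    intro y hy y' hy' h
    simp only [coe_filter, mem_univ, true_and, Set.mem_ofPred_eq] at hy hy'
    have hW : toK y - toK y' ∈ W := W.sub_mem hy hy'
    have hz : toK y - toK y' = 0 := by
      refine h0 _ hW ?_
      intro j hj
      have h1 : y j = y' j := congrFun h ⟨j, hj⟩
      simp only [Pi.sub_apply, toK, h1, sub_self]
    funext p
    refine toK_apply_injective' p ?_
    have h2 := congrFun hz p
    simpa [sub_eq_zero] using h2
  have hc := Finset.card_le_card_of_injOn
    (s := univ.filter (fun y : Co m b => toK y ∈ W))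
    (t := (univ : Finset ({j // j ∈ J} → Fin b → ZMod 2)))
    (fun (y : Co m b) (j : {j // j ∈ J}) => y j.1) (fun _ _ => mem_coe.2 (mem_univ _)) hinj
  refine hc.trans (le_of_eq ?_)
  rw [card_univ, Fintype.card_fun, Fintype.card_fun, ZMod.card, Fintype.card_fin,
    Fintype.card_coe, hJ, ← pow_mul]

end Pool.Agent.H538R3.QF
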