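import Pool.Agent.H538R3.QF.Pairs

/-!
# The number of bad maps for one configuration
-/

set_option autoImplicit false

open Finset

namespace Pool.Agent.H538R3.QF

theorem confCard_key {n m b : ℕ} (D S T : Finset (Fin n)) (hT : ∀ k ∈ T, k ∉ D)
    (a : {k // k ∈ D \ S} → ZMod 2) (i : Fin n) (hi : i ∈ S) (w w' : Fin n → Co m b)
    (h : ∀ k, k ∉ S → k ∉ T → w k = w' k) (hl : lin w (ext D S a i) = lin w' (ext D S a i)) :
    w i = w' i := by
  have h1 : ∑ k, ext D S a i k • (w k - w' k) = 0 := by
    simp only [smul_sub, Finset.sum_sub_distrib]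
    exact sub_eq_zero.mpr hl
  rw [Finset.sum_eq_single i] at h1
  · have h2 : ext D S a i i = 1 := by
      unfold ext
      rw [if_pos hi, if_pos rfl]
    rw [h2, one_smul] at h1
    exact sub_eq_zero.mp h1
  · intro k _ hk
    by_cases hkS : k ∈ S
    · have h3 : ext D S a i k = 0 := by
        unfold ext
        rw [if_pos hkS, if_neg hk]
      rw [h3, zero_smul]
    · by_cases hkT : k ∈ T
      · have h3 : ext D S a i k = 0 := by
          unfold ext
          rw [if_neg hkS, dif_neg]
          intro hc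
          exact hT k hkT (Finset.mem_sdiff.mp hc).1
        rw [h3, zero_smul]
      · rw [h k hkS hkT, sub_self, smul_zero]
  · intro hc
    exact (hc (Finset.mem_univ i)).elim

open Classical in
/-- TASK Q7 (QF/ConfCard.lean): the number of bad maps for one configuration. -/
theorem conf_card {n m b d : ℕ} (D S T : Finset (Fin n)) (hS : S ⊆ D) (hT : T ⊆ Dᶜ)
    (hSd : S.card = d) (hTd : T.card = d) (a : {i // i ∈ S} → {k // k ∈ D \ S} → ZMod 2)
    (a' : {j // j ∈ T} → {k // k ∈ Dᶜ \ T} → ZMod 2) :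
    (univ.filter (fun w : Fin n → Co m b => Conf w D S T a a')).card ≤
      (2 ^ (b * (2 * m))) ^ (n - 2 * d) * (2 ^ d * 2 ^ (b * (2 * m * d) + b * (2 * m) ^ 2)) := by
  set Φ : (Fin n → Co m b) → ({k // k ∉ S ∪ T} → Co m b) ×
      (({i // i ∈ S} → Co m b) × ({j // j ∈ T} → Co m b)) := fun w =>
    (fun k => w k, (fun i => lin w (ext D S (a i) i), fun j => lin w (ext Dᶜ T (a' j) j))) with hΦ
  have hinj : Function.Injective Φ := by
    intro w w' hww
    rw [hΦ, Prod.mk.injEq, Prod.mk.injEq] at hww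
    obtain ⟨h1, h2, h3⟩ := hww
    have h1' : ∀ k, k ∉ S → k ∉ T → w k = w' k := by
      intro k hk1 hk2
      exact congrFun h1 ⟨k, by rw [Finset.mem_union]; tauto⟩
    funext k
    by_cases hkS : k ∈ S
    · refine confCard_key D S T (fun j hj => Finset.mem_compl.mp (hT hj)) (a ⟨k, hkS⟩) k hkS w w'
        h1' ?_
      exact congrFun h2 ⟨k, hkS⟩
    · by_cases hkT : k ∈ T
      · refine confCard_key Dᶜ T S (fun j hj => ?_) (a' ⟨k, hkT⟩) k hkT w w'
          (fun j hj1 hj2 => h1' j hj2 hj1) ?_
        · rw [Finset.mem_compl, not_not]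
          exact hS hj
        · exact congrFun h3 ⟨k, hkT⟩
      · exact h1' k hkS hkT
  have hdis : Disjoint S T := by
    rw [Finset.disjoint_left]
    intro i hi hj
    exact Finset.mem_compl.mp (hT hj) (hS hi)
  have hcρ : Fintype.card {k // k ∉ S ∪ T} = n - 2 * d := by
    rw [Fintype.card_subtype_compl, Fintype.card_fin, Fintype.card_coe,
      Finset.card_union_of_disjoint hdis, hSd, hTd, two_mul]
  have hcCo : Fintype.card (Co m b) = 2 ^ (b * (2 * m)) := by
    rw [Fintype.card_fun, Fintype.card_fun, ZMod.card, Fintype.card_fin, Fintype.card_sum,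
      Fintype.card_fin, ← pow_mul, two_mul]
  have hmap : ∀ w ∈ univ.filter (fun w : Fin n → Co m b => Conf w D S T a a'), Φ w ∈
      (univ : Finset ({k // k ∉ S ∪ T} → Co m b)) ×ˢ
      (univ.filter (fun g : ({i // i ∈ S} → Co m b) × ({j // j ∈ T} → Co m b) =>
        ∀ s t, bil (toK (g.1 s)) (toK (g.2 t)) = 0)) := by
    intro w hw
    rw [Finset.mem_filter] at hw
    rw [Finset.mem_product, Finset.mem_filter]
    exact ⟨Finset.mem_univ _, Finset.mem_univ _, fun s t => hw.2 s t⟩
  refine (Finset.card_le_card_of_injOn Φ hmap hinj.injOn).trans ?_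
  rw [Finset.card_product, Finset.card_univ, Fintype.card_fun, hcCo, hcρ]
  refine Nat.mul_le_mul_left _ ?_
  exact pairs_card (by rw [Fintype.card_coe, hSd]) (by rw [Fintype.card_coe, hTd])

end Pool.Agent.H538R3.QF
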