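import Mathlib

/-!
# Quadratic identities over `F_2[X]`: definitions
-/

set_option autoImplicit false

open Finset

namespace Pool.Agent.H538R3.QF

/-- The coordinates: `2 m` of them, in `m` pairs. -/
abbrev Ix (m : ℕ) : Type := Fin m ⊕ Fin m

/-- Vectors with `2 m` coordinates which are polynomials over `F_2` with `b` coefficients. -/
abbrev Co (m b : ℕ) : Type := Ix m → Fin b → ZMod 2

/-- The polynomial with the given coefficients. -/
noncomputable def pol {b : ℕ} : (Fin b → ZMod 2) →ₗ[ZMod 2] Polynomial (ZMod 2) :=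
  (Polynomial.degreeLT (ZMod 2) b).subtype ∘ₗ
    (Polynomial.degreeLTEquiv (ZMod 2) b).symm.toLinearMap

/-- The hyperbolic quadratic form. -/
def quad {m : ℕ} {R : Type} [CommRing R] (y : Ix m → R) : R :=
  ∑ i : Fin m, y (Sum.inl i) * y (Sum.inr i)

/-- Its polar form. -/
def bil {m : ℕ} {R : Type} [CommRing R] (y z : Ix m → R) : R :=
  ∑ p : Ix m, y p * z p.swap

/-- The field of rational functions. -/
abbrev K : Type := FractionRing (Polynomial (ZMod 2))

/-- A vector of polynomials as a vector of rational functions. -/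
noncomputable def toK {m b : ℕ} (y : Co m b) : Ix m → K :=
  fun p => algebraMap (Polynomial (ZMod 2)) K (pol (y p))

/-- The linear map `F_2^n → (F_2[X]_{<b})^(2m)` with the values `w k` at the unit vectors. -/
def lin {n m b : ℕ} (w : Fin n → Co m b) (x : Fin n → ZMod 2) : Co m b := ∑ k, x k • w k

/-- The bits as elements of `F_2`. -/
def vec {n : ℕ} (x : Fin n → Bool) : Fin n → ZMod 2 := fun i => if x i then 1 else 0

/-- The number of ones is even. -/
def EvenW {n : ℕ} (x : Fin n → Bool) : Prop :=
  Even (univ.filter (fun i : Fin n => x i = true)).card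

open Classical in
/-- The hard function: the number of ones is even and the quadratic form has the value `c` at the
vector of polynomials given by `x`. -/
noncomputable def fn {n m b : ℕ} (w : Fin n → Co m b) (c : Polynomial (ZMod 2))
    (x : Fin n → Bool) : Bool :=
  decide (EvenW x ∧ quad (fun p => pol (lin w (vec x) p)) = c)

/-- There are no two large sets of vectors, supported by disjoint sets of coordinates, such that
the polar form vanishes on all pairs of differences. -/
def Good {n m b : ℕ} (w : Fin n → Co m b) (d : ℕ) : Prop :=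
  ∀ (D : Finset (Fin n)) (X Y : Finset (Fin n → ZMod 2)),
    (∀ x ∈ X, ∀ i, i ∉ D → x i = 0) → (∀ y ∈ Y, ∀ i ∈ D, y i = 0) →
    2 ^ d ≤ X.card → 2 ^ d ≤ Y.card →
    ∃ x ∈ X, ∃ x' ∈ X, ∃ y ∈ Y, ∃ y' ∈ Y,
      bil (toK (lin w (x - x'))) (toK (lin w (y - y'))) ≠ 0

/-- The vector supported by `D` which is the `i`-th unit vector on `S` and `a` elsewhere on `D`. -/
def ext {n : ℕ} (D S : Finset (Fin n)) (a : {k // k ∈ D \ S} → ZMod 2) (i : Fin n) :
    Fin n → ZMod 2 :=
  fun k => if k ∈ S then (if k = i then 1 else 0) else if h : k ∈ D \ S then a ⟨k, h⟩ else 0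

/-- The configurations which should not occur. -/
def Conf {n m b : ℕ} (w : Fin n → Co m b) (D S T : Finset (Fin n))
    (a : {i // i ∈ S} → {k // k ∈ D \ S} → ZMod 2)
    (a' : {j // j ∈ T} → {k // k ∈ Dᶜ \ T} → ZMod 2) : Prop :=
  ∀ (i : {i // i ∈ S}) (j : {j // j ∈ T}),
    bil (toK (lin w (ext D S (a i) i))) (toK (lin w (ext Dᶜ T (a' j) j))) = 0

end Pool.Agent.H538R3.QF
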