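import Pool.Agent.H538R3.QF.Easy
import Pool.Agent.H554R2.Lin.OrProgram

/-!
# Quadratic identities over `F_2[X]`: a deterministic program
-/

set_option autoImplicit false

open Finset

namespace Pool.Agent.H538R3.QF

open Pool.Agent.H554R2.Sem Pool.Agent.H554R2.Coin

/-- The program with the negated output. -/
def neg {ι : Type} (P : BP ι Bool) : BP ι Bool where
  State := P.State
  start := P.start
  node s := (P.node s).map id (fun b => !b)

theorem neg_walk {ι : Type} (P : BP ι Bool) (x : ι → Bool) (l : List ι) (s v : P.State)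
    (h : P.Walk x s l v) : (neg P).Walk x s l v := by
  induction l generalizing s with
  | nil => exact h
  | cons i l ih =>
    obtain ⟨nxt, h1, h2⟩ := h
    refine ⟨nxt, ?_, ih _ h2⟩
    show (P.node s).map id (fun b => !b) = _
    rw [h1]; rfl

theorem neg_comp {ι : Type} (P : BP ι Bool) (x : ι → Bool) (l : List ι) (b : Bool)
    (h : P.Comp x l b) : (neg P).Comp x l (!b) := by
  obtain ⟨v, h1, h2⟩ := h
  refine ⟨v, neg_walk P x l _ _ h1, ?_⟩
  show (P.node v).map id (fun b => !b) = _
  rw [h2]; rfl

open Classical in
/-- TASK Q16 (QF/Det.lean): a deterministic program. -/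
theorem det_program {n m b : ℕ} (hb : 1 ≤ b) (w : Fin n → Co m b) (c : Polynomial (ZMod 2))
    (hc : c.natDegree < 2 * b) :
    ∃ P : BP (Fin n) Bool,
      Fintype.card P.State ≤ 16 * b * ((n + 1) * ((16 * b) ^ (2 * m) * 2)) + 1 ∧
      ∀ x, ∃ l : List (Fin n), (∀ i, l.count i ≤ 16 * b) ∧ P.Comp x l (fn w c x) := by
  obtain ⟨k, U, v, hk, hU, hcomp, htrue, hfalse⟩ := easy hb w c hc 1
  have h16 : 8 * b * 2 ^ 1 = 16 * b := by ring
  rw [h16] at hk
  simp only [h16] at hU
  let e : Fin (2 ^ k) ≃ (Fin k → Bool) := (Fintype.equivFinOfCardEq (by simp)).symm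
  obtain ⟨P, hP, hP2⟩ := Pool.Agent.H554R2.Lin.or_program (n := n) (m := 2 ^ k)
    (K := (n + 1) * ((16 * b) ^ (2 * m) * 2)) (fun j => neg (U (e j)))
    (fun _ => List.finRange n) (fun j x => !(v (e j) x)) (fun j => hU (e j))
    (fun _ => List.nodup_finRange n) (fun j x => neg_comp _ _ _ _ (hcomp (e j) x))
  refine ⟨neg P, ?_, fun x => ?_⟩
  · have h1 : Fintype.card (neg P).State = Fintype.card P.State := rfl
    rw [h1]
    refine hP.trans ?_
    gcongr
  · obtain ⟨L, hL, hc'⟩ := hP2 x
    refine ⟨L, fun i => (hL i).trans hk, ?_⟩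
    have h2 := neg_comp _ _ _ _ hc'
    have h3 : (!decide (∃ j : Fin (2 ^ k), (!(v (e j) x)) = true)) = fn w c x := by
      cases hf : fn w c x with
      | true =>
        have : ¬ ∃ j : Fin (2 ^ k), (!(v (e j) x)) = true := by
          rintro ⟨j, hj⟩
          rw [htrue (e j) x hf] at hj
          exact absurd hj (by simp)
        rw [decide_eq_false this]; rfl
      | false =>
        have : ∃ j : Fin (2 ^ k), (!(v (e j) x)) = true := by
          by_contra hcon
          push Not at hcon
          have h4 : ∀ r, v r x = true := by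
            intro r
            have h5 := hcon (e.symm r)
            rw [e.apply_symm_apply] at h5
            simpa using h5
          have h6 := hfalse x hf
          have h7 : Nat.card {r // v r x = true} = 2 ^ k := by
            have h8 : Nat.card {r // v r x = true} = Nat.card (Fin k → Bool) :=
              Nat.card_congr (Equiv.subtypeUnivEquiv h4)
            rw [h8]; simp
          rw [h7] at h6
          have : 0 < 2 ^ k := by positivity
          omega
        rw [decide_eq_true this]; rfl
    rw [← h3]
    convert h2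

end Pool.Agent.H538R3.QF
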