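import Pool.Agent.H538R3.QF.Defs
import Pool.Agent.H554R2.Sem.Defs
import Pool.Agent.H554R2.Coin.Defs
import Pool.Agent.H554R2.Lin.Defs

/-!
# Task Q14: few points are roots
-/

set_option autoImplicit false

open Finset

namespace Pool.Agent.H538R3.QF

open Pool.Agent.H554R2.Sem Pool.Agent.H554R2.Coin

private theorem gap_pol {b : ℕ} (hb : 1 ≤ b) (v : Fin b → ZMod 2) :
    (pol v).natDegree ≤ b - 1 := by
  have h : pol v ∈ Polynomial.degreeLT (ZMod 2) b := by
    unfold pol
    exact ((Polynomial.degreeLTEquiv (ZMod 2) b).symm v).2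
  rw [Polynomial.mem_degreeLT] at h
  rcases eq_or_ne (pol v) 0 with h0 | h0
  · rw [h0, Polynomial.natDegree_zero]
    omega
  · have := (Polynomial.natDegree_lt_iff_degree_lt h0).2 h
    omega

open Classical in
/-- TASK Q14 (QF/Gap.lean): few points are roots. -/
theorem gap {n m b : ℕ} (hb : 1 ≤ b) (w : Fin n → Co m b) (c : Polynomial (ZMod 2))
    (hc : c.natDegree < 2 * b) (L : Type) [Field L] [Fintype L] [Algebra (ZMod 2) L] (x : Pt n)
    (hx : fn w c x = false) :
    (univ.filter (fun α : L => EvenW x ∧ quad (fun p => Polynomial.aeval α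
      (pol (lin w (vec x) p))) = Polynomial.aeval α c)).card < 2 * b := by
  by_cases hE : EvenW x
  · set P : Polynomial (ZMod 2) := quad (fun p => pol (lin w (vec x) p)) - c with hP
    have hP0 : P ≠ 0 := by
      intro h
      unfold fn at hx
      rw [decide_eq_false_iff_not] at hx
      exact hx ⟨hE, sub_eq_zero.1 h⟩
    have hdeg : P.natDegree < 2 * b := by
      have h1 : (quad (fun p => pol (lin w (vec x) p))).natDegree ≤ 2 * b - 1 := by
        unfold quad
        apply Polynomial.natDegree_sum_le_of_forall_le
        intro i _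
        refine Polynomial.natDegree_mul_le.trans ?_
        have h2 := gap_pol hb (lin w (vec x) (Sum.inl i))
        have h3 := gap_pol hb (lin w (vec x) (Sum.inr i))
        simp only
        omega
      have h2 := Polynomial.natDegree_sub_le (quad (fun p => pol (lin w (vec x) p))) c
      rw [← hP] at h2
      omega
    set Q : Polynomial L := P.map (algebraMap (ZMod 2) L) with hQ
    have hQ0 : Q ≠ 0 := by
      rw [hQ]
      exact (Polynomial.map_ne_zero_iff (algebraMap (ZMod 2) L).injective).2 hP0
    have hsub : univ.filter (fun α : L => EvenW x ∧ quad (fun p => Polynomial.aeval α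
        (pol (lin w (vec x) p))) = Polynomial.aeval α c) ⊆ Q.roots.toFinset := by
      intro α hα
      rw [Finset.mem_filter] at hα
      rw [Multiset.mem_toFinset, Polynomial.mem_roots hQ0, Polynomial.IsRoot.def, hQ,
        Polynomial.eval_map_algebraMap, hP, map_sub, sub_eq_zero, ← hα.2.2]
      unfold quad
      rw [map_sum]
      apply Finset.sum_congr rfl
      intro i _
      rw [map_mul]
    calc _ ≤ Q.roots.toFinset.card := Finset.card_le_card hsub
      _ ≤ Q.roots.card := Multiset.toFinset_card_le _
      _ ≤ Q.natDegree := Polynomial.card_roots' Q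
      _ ≤ P.natDegree := Polynomial.natDegree_map_le
      _ < 2 * b := hdeg
  · rw [Finset.filter_false_of_mem (fun α _ h => hE h.1)]
    simp
    omega

end Pool.Agent.H538R3.QF
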