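import Pool.Agent.H538R3.QF.Defs
import Pool.Agent.H554R2.Sem.Defs
import Pool.Agent.H554R2.Coin.Defs

/-!
# The ordered read-once program for one point
-/

set_option autoImplicit false

open Finset

namespace Pool.Agent.H538R3.QF

open Pool.Agent.H554R2.Sem Pool.Agent.H554R2.Coin

theorem prog_walk_all {n : ℕ} {β : Type} (P : BP (Fin n) β) (x : Fin n → Bool) (f : ℕ → P.State)
    (h : ∀ (p : ℕ) (hp : p < n), ∃ nxt : Bool → P.State,
      P.node (f p) = Sum.inl (⟨p, hp⟩, nxt) ∧ nxt (x ⟨p, hp⟩) = f (p + 1)) :
    ∀ j : ℕ, j ≤ n → P.Walk x (f (n - j)) ((List.finRange n).drop (n - j)) (f n) := by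
  intro j
  induction j with
  | zero =>
    intro _
    rw [Nat.sub_zero, List.drop_of_length_le (by simp)]
    exact rfl
  | succ j ih =>
    intro hj
    have hlt : n - (j + 1) < n := by omega
    have e1 : n - (j + 1) + 1 = n - j := by omega
    obtain ⟨nxt, h1, h2⟩ := h (n - (j + 1)) hlt
    have h3 : (List.finRange n).drop (n - (j + 1)) =
        ⟨n - (j + 1), hlt⟩ :: (List.finRange n).drop (n - j) := by
      rw [List.drop_eq_getElem_cons (by simpa using hlt), e1]
      simp
    rw [h3]
    refine ⟨nxt, h1, ?_⟩
    rw [h2, e1]
    exact ih (by omega)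

/-- the set of ones among the first `p` variables -/
def progOnes {n : ℕ} (x : Fin n → Bool) (p : ℕ) : Finset (Fin n) :=
  univ.filter (fun k => k.val < p ∧ x k = true)

theorem progOnes_succ_true {n : ℕ} (x : Fin n → Bool) (p : ℕ) (hp : p < n)
    (h : x ⟨p, hp⟩ = true) : progOnes x (p + 1) = insert ⟨p, hp⟩ (progOnes x p) := by
  ext k
  simp only [progOnes, mem_filter, mem_univ, true_and, mem_insert]
  constructor
  · rintro ⟨h1, h2⟩
    by_cases hk : k.val = p
    · left; exact Fin.ext hk
    · right; exact ⟨by omega, h2⟩
  · rintro (h1 | ⟨h1, h2⟩)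
    · subst h1; exact ⟨by simp, h⟩
    · exact ⟨by omega, h2⟩

theorem progOnes_not_mem {n : ℕ} (x : Fin n → Bool) (p : ℕ) (hp : p < n) :
    (⟨p, hp⟩ : Fin n) ∉ progOnes x p := by
  simp [progOnes]

theorem progOnes_succ_false {n : ℕ} (x : Fin n → Bool) (p : ℕ) (hp : p < n)
    (h : x ⟨p, hp⟩ = false) : progOnes x (p + 1) = progOnes x p := by
  ext k
  simp only [progOnes, mem_filter, mem_univ, true_and]
  constructor
  · rintro ⟨h1, h2⟩
    refine ⟨?_, h2⟩
    by_cases hk : k.val = p
    · have : k = ⟨p, hp⟩ := Fin.ext hk
      rw [this, h] at h2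
      exact absurd h2 (by simp)
    · omega
  · rintro ⟨h1, h2⟩
    exact ⟨by omega, h2⟩

theorem progOnes_all {n : ℕ} (x : Fin n → Bool) :
    progOnes x n = univ.filter (fun i : Fin n => x i = true) := by
  ext k
  simp [progOnes]

open Classical in
/-- The program. -/
noncomputable def progU {n m b : ℕ} (w : Fin n → Co m b) (c : Polynomial (ZMod 2)) (L : Type)
    [Field L] [Fintype L] [Algebra (ZMod 2) L] (α : L) : BP (Fin n) Bool where
  State := Fin (n + 1) × (Ix m → L) × Bool
  start := (⟨0, Nat.succ_pos n⟩, 0, true)
  node := fun s => if h : (s.1 : ℕ) < n then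
      Sum.inl (⟨s.1, h⟩, fun bit => (⟨s.1 + 1, Nat.succ_lt_succ h⟩,
        (if bit = true then s.2.1 + (fun q => Polynomial.aeval α (pol (w ⟨s.1, h⟩ q))) else s.2.1),
        (if bit = true then !s.2.2 else s.2.2)))
    else Sum.inr (decide (s.2.2 = true ∧ quad s.2.1 = Polynomial.aeval α c))

open Classical in
/-- The states of the computation on the input `x`. -/
noncomputable def progState {n m b : ℕ} (w : Fin n → Co m b) (L : Type)
    [Field L] [Fintype L] [Algebra (ZMod 2) L] (α : L) (x : Fin n → Bool) (p : ℕ) :
    Fin (n + 1) × (Ix m → L) × Bool :=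
  (⟨min p n, by omega⟩, ∑ k ∈ progOnes x p, (fun q => Polynomial.aeval α (pol (w k q))),
    decide (Even (progOnes x p).card))

theorem prog_value {n m b : ℕ} (w : Fin n → Co m b) (L : Type)
    [Field L] [Fintype L] [Algebra (ZMod 2) L] (α : L) (x : Fin n → Bool) :
    (∑ k ∈ progOnes x n, (fun q => Polynomial.aeval α (pol (w k q))) : Ix m → L) =
      fun p => Polynomial.aeval α (pol (lin w (vec x) p)) := by
  funext p
  rw [Finset.sum_apply]
  have h1 : lin w (vec x) p = ∑ k, vec x k • w k p := by
    unfold lin
    rw [Finset.sum_apply]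
    rfl
  rw [h1, map_sum, map_sum, progOnes_all, Finset.sum_filter]
  refine Finset.sum_congr rfl ?_
  intro k _
  by_cases hk : x k = true
  · simp [vec, hk]
  · simp [vec, hk]

open Classical in
/-- TASK Q13: the ordered read-once program for one point `α`. -/
theorem program {n m b : ℕ} (w : Fin n → Co m b) (c : Polynomial (ZMod 2)) (L : Type) [Field L]
    [Fintype L] [Algebra (ZMod 2) L] (α : L) :
    ∃ U : BP (Fin n) Bool, Fintype.card U.State = (n + 1) * (Fintype.card L ^ (2 * m) * 2) ∧
      ∀ x : Pt n, U.Comp x (List.finRange n)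
        (decide (EvenW x ∧ quad (fun p => Polynomial.aeval α (pol (lin w (vec x) p))) =
          Polynomial.aeval α c)) := by
  refine ⟨progU w c L α, ?_, ?_⟩
  · have h1 : Fintype.card (progU w c L α).State =
        Fintype.card (Fin (n + 1) × (Ix m → L) × Bool) := Fintype.card_congr (Equiv.refl _)
    rw [h1]
    simp only [Fintype.card_prod, Fintype.card_fin, Fintype.card_fun, Fintype.card_bool,
      Fintype.card_sum]
    rw [two_mul]
  · intro x
    have hw := prog_walk_all (progU w c L α) x (progState w L α x) (by
      intro p hp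
      have hm : min p n = p := by omega
      have hlt : ((progState w L α x p).1 : ℕ) < n := by
        simp only [progState]
        omega
      refine ⟨fun bit => (⟨(progState w L α x p).1 + 1, Nat.succ_lt_succ hlt⟩,
        (if bit = true then (progState w L α x p).2.1 +
          (fun q => Polynomial.aeval α (pol (w ⟨(progState w L α x p).1, hlt⟩ q)))
          else (progState w L α x p).2.1),
        (if bit = true then !(progState w L α x p).2.2 else (progState w L α x p).2.2)), ?_, ?_⟩
      · simp only [progU]
        rw [dif_pos hlt]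
        congr 2
        exact Fin.ext hm
      · have e0 : (⟨(progState w L α x p).1, hlt⟩ : Fin n) = ⟨p, hp⟩ := Fin.ext hm
        rw [e0]
        refine Prod.ext ?_ (Prod.ext ?_ ?_)
        · apply Fin.ext
          show min p n + 1 = min (p + 1) n
          omega
        · show (if x ⟨p, hp⟩ = true then (∑ k ∈ progOnes x p,
            (fun q => Polynomial.aeval α (pol (w k q))) : Ix m → L) +
            (fun q => Polynomial.aeval α (pol (w ⟨p, hp⟩ q))) else
            (∑ k ∈ progOnes x p, (fun q => Polynomial.aeval α (pol (w k q))) : Ix m → L)) =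
            ∑ k ∈ progOnes x (p + 1), (fun q => Polynomial.aeval α (pol (w k q)))
          by_cases hx : x ⟨p, hp⟩ = true
          · rw [if_pos hx, progOnes_succ_true x p hp hx, sum_insert (progOnes_not_mem x p hp),
              add_comm]
          · have hx' : x ⟨p, hp⟩ = false := by simpa using hx
            rw [if_neg hx, progOnes_succ_false x p hp hx']
        · show (if x ⟨p, hp⟩ = true then !(decide (Even (progOnes x p).card)) else
            decide (Even (progOnes x p).card)) = decide (Even (progOnes x (p + 1)).card)
          by_cases hx : x ⟨p, hp⟩ = true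
          · rw [if_pos hx, progOnes_succ_true x p hp hx,
              card_insert_of_notMem (progOnes_not_mem x p hp)]
            by_cases he : Even (progOnes x p).card
            · have : ¬ Even ((progOnes x p).card + 1) := by
                rw [Nat.even_add_one]; exact fun h => h he
              simp [he, this]
            · have : Even ((progOnes x p).card + 1) := Nat.even_add_one.mpr he
              simp [he, this]
          · have hx' : x ⟨p, hp⟩ = false := by simpa using hx
            rw [if_neg hx, progOnes_succ_false x p hp hx']) n le_rfl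
    rw [Nat.sub_self] at hw
    refine ⟨progState w L α x n, ?_, ?_⟩
    · have h0 : (progU w c L α).start = progState w L α x 0 := by
        show ((⟨0, Nat.succ_pos n⟩, 0, true) : Fin (n + 1) × (Ix m → L) × Bool) = _
        unfold progState
        have : progOnes x 0 = ∅ := by
          ext k; simp [progOnes]
        rw [this]
        simp
      rw [h0]
      exact hw
    · have hlt : ¬ ((progState w L α x n).1 : ℕ) < n := by
        simp only [progState]
        omega
      simp only [progU]
      rw [dif_neg hlt]
      congr 1
      rw [decide_eq_decide]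
      show (decide (Even (progOnes x n).card) = true ∧ quad (∑ k ∈ progOnes x n,
            (fun q => Polynomial.aeval α (pol (w k q))) : Ix m → L) = _) ↔ _
      rw [prog_value, decide_eq_true_iff, progOnes_all]
      rfl

end Pool.Agent.H538R3.QF
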