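import Pool.Agent.H538R3.QF.Defs
import Pool.Agent.H538R3.QF.Prog
import Pool.Agent.H538R3.QF.Gap

/-!
# Randomised programs with one-sided error
-/

set_option autoImplicit false

open Finset

namespace Pool.Agent.H538R3.QF

open Pool.Agent.H554R2.Sem Pool.Agent.H554R2.Coin

private theorem quad_aeval {m : ℕ} {L : Type} [Field L] [Algebra (ZMod 2) L] (α : L)
    (y : Ix m → Polynomial (ZMod 2)) :
    quad (fun p => Polynomial.aeval α (y p)) = Polynomial.aeval α (quad y) := by
  unfold quad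
  rw [map_sum]
  refine Finset.sum_congr rfl fun i _ => ?_
  rw [map_mul]

/-- TASK Q15 (QF/Easy.lean): randomised programs with one-sided error. -/
theorem easy {n m b : ℕ} (hb : 1 ≤ b) (w : Fin n → Co m b) (c : Polynomial (ZMod 2))
    (hc : c.natDegree < 2 * b) (t : ℕ) :
    ∃ (k : ℕ) (U : (Fin k → Bool) → BP (Fin n) Bool) (v : (Fin k → Bool) → Pt n → Bool),
      2 ^ k ≤ 8 * b * 2 ^ t ∧
      (∀ r, Fintype.card (U r).State ≤ (n + 1) * ((8 * b * 2 ^ t) ^ (2 * m) * 2)) ∧
      (∀ r x, (U r).Comp x (List.finRange n) (v r x)) ∧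
      (∀ r x, fn w c x = true → v r x = true) ∧
      ∀ x, fn w c x = false → 2 ^ t * Nat.card {r // v r x = true} ≤ 2 ^ k := by
  classical
  have ht : 1 ≤ 2 ^ t := Nat.one_le_two_pow
  obtain ⟨N, hN⟩ : ∃ N, N = 2 * b * 2 ^ t := ⟨_, rfl⟩
  have hN2 : 2 ≤ N := by rw [hN]; nlinarith
  obtain ⟨k, hk⟩ : ∃ k, k = Nat.clog 2 N := ⟨_, rfl⟩
  have hk1 : N ≤ 2 ^ k := by rw [hk]; exact Nat.le_pow_clog (by norm_num) N
  have hk0 : k ≠ 0 := by
    rintro h0
    rw [h0] at hk1
    simp at hk1
    omega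
  have hk2 : 2 ^ k ≤ 8 * b * 2 ^ t := by
    have h1 : 2 ^ (Nat.clog 2 N).pred < N := Nat.pow_pred_clog_lt_self (by norm_num) (by omega)
    rw [← hk] at h1
    obtain ⟨j, rfl⟩ := Nat.exists_eq_succ_of_ne_zero hk0
    rw [Nat.pred_succ] at h1
    rw [Nat.pow_succ]
    have : 8 * b * 2 ^ t = 4 * N := by rw [hN]; ring
    omega
  haveI : Fact (Nat.Prime 2) := ⟨Nat.prime_two⟩
  let L : Type := GaloisField 2 k
  letI : Fintype L := Fintype.ofFinite L
  have hL : Fintype.card L = 2 ^ k := by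
    rw [← Nat.card_eq_fintype_card]
    exact GaloisField.card 2 k hk0
  have e : (Fin k → Bool) ≃ L := Fintype.equivOfCardEq (by rw [hL]; simp)
  choose U hU1 hU2 using fun α : L => program w c L α
  refine ⟨k, fun r => U (e r), fun r x => decide (EvenW x ∧
    quad (fun p => Polynomial.aeval (e r) (pol (lin w (vec x) p))) = Polynomial.aeval (e r) c),
    hk2, ?_, fun r x => hU2 (e r) x, ?_, ?_⟩
  · intro r
    rw [hU1, hL]
    gcongr
  · intro r x hx
    unfold fn at hx
    rw [decide_eq_true_eq] at hx ⊢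
    exact ⟨hx.1, by rw [quad_aeval, hx.2]⟩
  · intro x hx
    have hg := gap hb w c hc L x hx
    have h1 : Nat.card {r : Fin k → Bool // decide (EvenW x ∧
        quad (fun p => Polynomial.aeval (e r) (pol (lin w (vec x) p))) =
        Polynomial.aeval (e r) c) = true} = (univ.filter (fun α : L => EvenW x ∧
        quad (fun p => Polynomial.aeval α (pol (lin w (vec x) p))) =
        Polynomial.aeval α c)).card := by
      rw [← Fintype.card_subtype, ← Nat.card_eq_fintype_card]
      refine Nat.card_congr (e.subtypeEquiv fun r => ?_)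
      rw [decide_eq_true_eq]
    rw [h1]
    calc 2 ^ t * _ ≤ 2 ^ t * (2 * b) := by
          gcongr
      _ = N := by rw [hN]; ring
      _ ≤ 2 ^ k := hk1

end Pool.Agent.H538R3.QF
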