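import Pool.Agent.H538R3.QF.Pivot

/-!
# Q2: differences in echelon form (helper771)
-/

set_option autoImplicit false

open Finset

namespace Pool.Agent.H538R3.QF

/-- TASK Q2 (QF/Echelon.lean): a large set of vectors has differences in echelon form. -/
theorem echelon {n : ℕ} (d : ℕ) (D : Finset (Fin n)) (X : Finset (Fin n → ZMod 2))
    (hX : ∀ x ∈ X, ∀ i, i ∉ D → x i = 0) (hc : 2 ^ d ≤ X.card) :
    ∃ S : Finset (Fin n), S ⊆ D ∧ S.card = d ∧
      ∃ a : {i // i ∈ S} → {k // k ∈ D \ S} → ZMod 2, ∀ i : {i // i ∈ S},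
        ext D S (a i) i ∈ Submodule.span (ZMod 2)
          {z : Fin n → ZMod 2 | ∃ x ∈ X, ∃ x' ∈ X, z = x - x'} := by
  classical
  set W := Submodule.span (ZMod 2) {z : Fin n → ZMod 2 | ∃ x ∈ X, ∃ x' ∈ X, z = x - x'} with hW
  have hW0 : ∀ y ∈ W, ∀ i, i ∉ D → y i = 0 := by
    intro y hy i hi
    induction hy using Submodule.span_induction with
    | mem y h =>
      obtain ⟨x, hx, x', hx', rfl⟩ := h
      rw [Pi.sub_apply, hX x hx i hi, hX x' hx' i hi, sub_zero]
    | zero => rfl
    | add y z _ _ h1 h2 => rw [Pi.add_apply, h1, h2, add_zero]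
    | smul c y _ h => rw [Pi.smul_apply, h, smul_zero]
  have hne : X.Nonempty := by
    rw [← card_pos]
    exact lt_of_lt_of_le (by positivity) hc
  obtain ⟨x0, hx0⟩ := hne
  have hd : d ≤ Module.finrank (ZMod 2) W := by
    have h1 : X.card ≤ Fintype.card W := by
      have h2 : Fintype.card {x // x ∈ X} ≤ Fintype.card W := by
        refine Fintype.card_le_of_injective
          (fun x : {x // x ∈ X} => (⟨x.1 - x0, Submodule.subset_span ⟨x.1, x.2, x0, hx0, rfl⟩⟩ : W)) ?_
        intro x x' h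
        have h3 := congrArg Subtype.val h
        simp only at h3
        exact Subtype.ext (sub_left_injective h3)
      rwa [Fintype.card_coe] at h2
    rw [Module.card_eq_pow_finrank (K := ZMod 2) (V := W), ZMod.card] at h1
    exact (Nat.pow_le_pow_iff_right (by norm_num)).1 (hc.trans h1)
  obtain ⟨J, hJc, hJ⟩ := pivot W
  -- the restriction is bijective
  let ρ : W →ₗ[ZMod 2] ({j // j ∈ J} → ZMod 2) :=
    LinearMap.pi fun j => (LinearMap.proj (j : Fin n)) ∘ₗ W.subtype
  have hρi : Function.Injective ρ := by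
    rw [injective_iff_map_eq_zero]
    intro y hy
    apply Subtype.ext
    exact hJ y.1 y.2 fun j hj => congrFun hy ⟨j, hj⟩
  have hfr : Module.finrank (ZMod 2) W = Module.finrank (ZMod 2) ({j // j ∈ J} → ZMod 2) := by
    rw [Module.finrank_fintype_fun_eq_card, Fintype.card_coe, hJc]
  have hρs : Function.Surjective ρ :=
    (LinearMap.injective_iff_surjective_of_finrank_eq_finrank hfr).1 hρi
  obtain ⟨S, hSJ, hSc⟩ := exists_subset_card_eq (by rw [hJc]; exact hd : d ≤ J.card)
  have hy : ∀ i : {i // i ∈ S}, ∃ y : W, ∀ j ∈ J, (y : Fin n → ZMod 2) j = if j = (i : Fin n) then 1 else 0 := by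
    intro i
    obtain ⟨y, hy⟩ := hρs fun j => if (j : Fin n) = (i : Fin n) then 1 else 0
    refine ⟨y, fun j hj => ?_⟩
    exact congrFun hy ⟨j, hj⟩
  choose y hy using hy
  have hSD : S ⊆ D := by
    intro i hi
    by_contra h
    have h1 := hW0 (y ⟨i, hi⟩).1 (y ⟨i, hi⟩).2 i h
    rw [hy ⟨i, hi⟩ i (hSJ hi), if_pos rfl] at h1
    exact one_ne_zero h1
  refine ⟨S, hSD, hSc, fun i k => (y i : Fin n → ZMod 2) (k : Fin n), fun i => ?_⟩
  have h1 : ext D S (fun k => (y i : Fin n → ZMod 2) (k : Fin n)) i = (y i : Fin n → ZMod 2) := by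
    funext k
    unfold ext
    by_cases hk : k ∈ S
    · rw [if_pos hk, hy i k (hSJ hk)]
    · rw [if_neg hk]
      by_cases hk' : k ∈ D \ S
      · rw [dif_pos hk']
      · rw [dif_neg hk']
        have hkD : k ∉ D := fun h => hk' (mem_sdiff.2 ⟨h, hk⟩)
        exact (hW0 _ (y i).2 k hkD).symm
  rw [h1]
  exact (y i).2

end Pool.Agent.H538R3.QF
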