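import Pool.Agent.H538R3.QF.Defs
import Pool.Agent.H538R3.QF.ConfCard

/-!
# Quadratic identities over `F_2[X]`: union bound (task Q8, helper828)
-/

set_option autoImplicit false

open Finset

namespace Pool.Agent.H538R3.QF

theorem exists_good_arith {n m b d c : ℕ} (hb : n ≤ 2 * m * b)
    (hd : 3 * n + d + b * (2 * m) ^ 2 < 2 * d ^ 2) (h1 : d ≤ c) (h2 : d ≤ n - c) (hc : c ≤ n) :
    3 * n + ((c - d) * d + ((n - c - d) * d + (b * (2 * m) * (n - 2 * d) +
      (d + (b * (2 * m * d) + b * (2 * m) ^ 2))))) < b * (2 * m) * n := by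
  obtain ⟨e, rfl⟩ := Nat.exists_eq_add_of_le h1
  obtain ⟨f, hf⟩ := Nat.exists_eq_add_of_le h2
  have hn : n = 2 * d + (e + f) := by omega
  have e1 : d + e - d = e := by omega
  have e2 : n - (d + e) - d = f := by omega
  have e3 : n - 2 * d = e + f := by omega
  rw [e1, e2, e3]
  have h3 : n * d ≤ 2 * m * b * d := Nat.mul_le_mul_right _ hb
  have h4 : b * (2 * m) * n = b * (2 * m) * (e + f) + 2 * (2 * m * b * d) := by rw [hn]; ring
  have h5 : n * d = 2 * d ^ 2 + (e * d + f * d) := by rw [hn]; ring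
  have h6 : b * (2 * m * d) = 2 * m * b * d := by ring
  rw [h4, h6]
  omega

open Classical in
/-- TASK Q8: union bound. -/
theorem exists_good {n m b d : ℕ} (hb : n ≤ 2 * m * b)
    (hd : 3 * n + d + b * (2 * m) ^ 2 < 2 * d ^ 2) :
    ∃ w : Fin n → Co m b, ∀ (D S T : Finset (Fin n))
      (a : {i // i ∈ S} → {k // k ∈ D \ S} → ZMod 2)
      (a' : {j // j ∈ T} → {k // k ∈ Dᶜ \ T} → ZMod 2),
      S ⊆ D → T ⊆ Dᶜ → S.card = d → T.card = d → ¬ Conf w D S T a a' := by
  by_contra hcon
  push Not at hcon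
  set P := (univ : Finset (Finset (Fin n) × Finset (Fin n) × Finset (Fin n))).filter
    (fun t => t.2.1 ⊆ t.1 ∧ t.2.2 ⊆ t.1ᶜ ∧ t.2.1.card = d ∧ t.2.2.card = d) with hP
  set f : Finset (Fin n) × Finset (Fin n) × Finset (Fin n) → Finset (Fin n → Co m b) := fun t =>
    (univ : Finset ({i // i ∈ t.2.1} → {k // k ∈ t.1 \ t.2.1} → ZMod 2)).biUnion (fun a =>
      (univ : Finset ({j // j ∈ t.2.2} → {k // k ∈ t.1ᶜ \ t.2.2} → ZMod 2)).biUnion (fun a' =>
        univ.filter (fun w : Fin n → Co m b => Conf w t.1 t.2.1 t.2.2 a a'))) with hf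
  have hcover : (univ : Finset (Fin n → Co m b)) ⊆ P.biUnion f := by
    intro w _
    obtain ⟨D, S, T, a, a', h1, h2, h3, h4, h5⟩ := hcon w
    rw [mem_biUnion]
    refine ⟨(D, S, T), ?_, ?_⟩
    · rw [hP, mem_filter]; exact ⟨mem_univ _, h1, h2, h3, h4⟩
    · simp only [hf, mem_biUnion, mem_univ, true_and, mem_filter]
      exact ⟨a, a', h5⟩
  have hN : Fintype.card (Fin n → Co m b) = 2 ^ (b * (2 * m) * n) := by
    rw [Fintype.card_fun, Fintype.card_fun, Fintype.card_fun, ZMod.card, Fintype.card_sum,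
      Fintype.card_fin, Fintype.card_fin, Fintype.card_fin, ← pow_mul, ← pow_mul]
    congr 1; ring
  have hPc : P.card ≤ 2 ^ (3 * n) := by
    refine (card_filter_le _ _).trans ?_
    rw [card_univ, Fintype.card_prod, Fintype.card_prod, Fintype.card_finset, Fintype.card_fin]
    exact le_of_eq (by ring)
  -- every triple contributes little
  have hlt : ∀ t ∈ P, 2 ^ (3 * n) * (f t).card < 2 ^ (b * (2 * m) * n) := by
    rintro ⟨D, S, T⟩ ht
    rw [hP, mem_filter] at ht
    obtain ⟨-, h1, h2, h3, h4⟩ := ht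
    simp only at h1 h2 h3 h4
    have hDn : D.card ≤ n := by
      have := card_le_univ D
      rwa [Fintype.card_fin] at this
    have hSD : d ≤ D.card := by rw [← h3]; exact card_le_card h1
    have hDc : (Dᶜ : Finset (Fin n)).card = n - D.card := by rw [card_compl, Fintype.card_fin]
    have hTD : d ≤ n - D.card := by rw [← h4, ← hDc]; exact card_le_card h2
    have c1 : (univ : Finset ({i // i ∈ S} → {k // k ∈ D \ S} → ZMod 2)).card =
        2 ^ ((D.card - d) * d) := by
      rw [card_univ, Fintype.card_fun, Fintype.card_fun, ZMod.card, Fintype.card_coe,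
        Fintype.card_coe, card_sdiff_of_subset h1, h3, ← pow_mul]
    have c2 : (univ : Finset ({j // j ∈ T} → {k // k ∈ Dᶜ \ T} → ZMod 2)).card =
        2 ^ ((n - D.card - d) * d) := by
      rw [card_univ, Fintype.card_fun, Fintype.card_fun, ZMod.card, Fintype.card_coe,
        Fintype.card_coe, card_sdiff_of_subset h2, h4, hDc, ← pow_mul]
    have c3 : (f (D, S, T)).card ≤ 2 ^ ((D.card - d) * d) * (2 ^ ((n - D.card - d) * d) *
        ((2 ^ (b * (2 * m))) ^ (n - 2 * d) *
          (2 ^ d * 2 ^ (b * (2 * m * d) + b * (2 * m) ^ 2)))) := by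
      rw [← c1]
      apply card_biUnion_le_card_mul
      intro a _
      rw [← c2]
      apply card_biUnion_le_card_mul
      intro a' _
      exact conf_card D S T h1 h2 h3 h4 a a'
    calc 2 ^ (3 * n) * (f (D, S, T)).card ≤ 2 ^ (3 * n) * _ := Nat.mul_le_mul_left _ c3
      _ = 2 ^ (3 * n + ((D.card - d) * d + ((n - D.card - d) * d + (b * (2 * m) * (n - 2 * d) +
            (d + (b * (2 * m * d) + b * (2 * m) ^ 2)))))) := by
          rw [← pow_mul]
          simp only [← pow_add]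
      _ < 2 ^ (b * (2 * m) * n) :=
          Nat.pow_lt_pow_right (by norm_num) (exists_good_arith hb hd hSD hTD hDn)
  have h1 : 2 ^ (b * (2 * m) * n) ≤ ∑ t ∈ P, (f t).card := by
    rw [← hN, ← card_univ]
    exact (card_le_card hcover).trans card_biUnion_le
  have hPne : P.Nonempty := by
    rw [nonempty_iff_ne_empty]
    intro h
    rw [h, sum_empty] at h1
    exact absurd h1 (not_le.mpr (by positivity))
  have h2 : 2 ^ (3 * n) * ∑ t ∈ P, (f t).card < P.card * 2 ^ (b * (2 * m) * n) := by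
    rw [mul_sum]
    calc ∑ t ∈ P, 2 ^ (3 * n) * (f t).card < ∑ _t ∈ P, 2 ^ (b * (2 * m) * n) :=
          sum_lt_sum_of_nonempty hPne hlt
      _ = P.card * 2 ^ (b * (2 * m) * n) := by rw [sum_const, smul_eq_mul]
  have h3 : P.card * 2 ^ (b * (2 * m) * n) ≤ 2 ^ (3 * n) * ∑ t ∈ P, (f t).card :=
    Nat.mul_le_mul hPc h1
  exact absurd h2 (not_lt.mpr h3)

end Pool.Agent.H538R3.QF
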