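import Pool.Agent.H538R3.QF.Echelon

/-!
# Q3: from echelon form to `Good` (helper771)
-/

set_option autoImplicit false

open Finset

namespace Pool.Agent.H538R3.QF

theorem toK_add {m b : ℕ} (y z : Co m b) : toK (y + z) = toK y + toK z := by
  funext p
  simp only [toK, Pi.add_apply, map_add]

theorem toK_zero {m b : ℕ} : toK (0 : Co m b) = 0 := by
  funext p
  simp only [toK, Pi.zero_apply, map_zero]

theorem lin_add {n m b : ℕ} (w : Fin n → Co m b) (x y : Fin n → ZMod 2) :
    lin w (x + y) = lin w x + lin w y := by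
  unfold lin
  rw [← sum_add_distrib]
  refine sum_congr rfl fun k _ => ?_
  rw [Pi.add_apply, add_smul]

theorem lin_zero {n m b : ℕ} (w : Fin n → Co m b) : lin w 0 = 0 := by
  unfold lin
  refine sum_eq_zero fun k _ => ?_
  rw [Pi.zero_apply, zero_smul]

theorem bil_add_left {m : ℕ} {R : Type} [CommRing R] (y y' z : Ix m → R) :
    bil (y + y') z = bil y z + bil y' z := by
  unfold bil
  rw [← sum_add_distrib]
  refine sum_congr rfl fun p _ => ?_
  rw [Pi.add_apply, add_mul]

theorem bil_add_right {m : ℕ} {R : Type} [CommRing R] (y z z' : Ix m → R) :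
    bil y (z + z') = bil y z + bil y z' := by
  unfold bil
  rw [← sum_add_distrib]
  refine sum_congr rfl fun p _ => ?_
  rw [Pi.add_apply, mul_add]

theorem bil_zero_left {m : ℕ} {R : Type} [CommRing R] (z : Ix m → R) : bil 0 z = 0 := by
  unfold bil
  refine sum_eq_zero fun p _ => ?_
  rw [Pi.zero_apply, zero_mul]

theorem bil_zero_right {m : ℕ} {R : Type} [CommRing R] (y : Ix m → R) : bil y 0 = 0 := by
  unfold bil
  refine sum_eq_zero fun p _ => ?_
  rw [Pi.zero_apply, mul_zero]

/-- induction over spans in characteristic two -/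
theorem span_two {V : Type} [AddCommGroup V] [Module (ZMod 2) V] {s : Set V} {Q : V → Prop}
    (h0 : Q 0) (hs : ∀ v ∈ s, Q v) (ha : ∀ u v, Q u → Q v → Q (u + v)) :
    ∀ v ∈ Submodule.span (ZMod 2) s, Q v := by
  intro v hv
  induction hv using Submodule.span_induction with
  | mem v h => exact hs v h
  | zero => exact h0
  | add u v _ _ h1 h2 => exact ha u v h1 h2
  | smul c v _ h =>
    fin_cases c
    · change Q ((0 : ZMod 2) • v)
      rw [zero_smul]
      exact h0
    · change Q ((1 : ZMod 2) • v)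
      rw [one_smul]
      exact h

/-- TASK Q3 (QF/GoodOf.lean). -/
theorem good_of {n m b : ℕ} (w : Fin n → Co m b) (d : ℕ)
    (h : ∀ (D S T : Finset (Fin n)) (a : {i // i ∈ S} → {k // k ∈ D \ S} → ZMod 2)
      (a' : {j // j ∈ T} → {k // k ∈ Dᶜ \ T} → ZMod 2),
      S ⊆ D → T ⊆ Dᶜ → S.card = d → T.card = d → ¬ Conf w D S T a a') : Good w d := by
  intro D X Y hX hY cX cY
  by_contra hcon
  push Not at hcon
  obtain ⟨S, hSD, hSc, a, ha⟩ := echelon d D X hX cX
  obtain ⟨T, hTD, hTc, a', ha'⟩ := echelon d Dᶜ Y (fun y hy i hi => by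
    rw [mem_compl, not_not] at hi
    exact hY y hy i hi) cY
  apply h D S T a a' hSD hTD hSc hTc
  intro i j
  have key : ∀ u ∈ Submodule.span (ZMod 2)
      {z : Fin n → ZMod 2 | ∃ x ∈ X, ∃ x' ∈ X, z = x - x'},
      ∀ v ∈ Submodule.span (ZMod 2) {z : Fin n → ZMod 2 | ∃ x ∈ Y, ∃ x' ∈ Y, z = x - x'},
      bil (toK (lin w u)) (toK (lin w v)) = 0 := by
    refine span_two ?_ ?_ ?_
    · intro v _
      rw [lin_zero, toK_zero, bil_zero_left]
    · rintro _ ⟨x, hx, x', hx', rfl⟩
      refine span_two ?_ ?_ ?_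
      · rw [lin_zero, toK_zero, bil_zero_right]
      · rintro _ ⟨y, hy, y', hy', rfl⟩
        exact hcon x hx x' hx' y hy y' hy'
      · intro v v' h1 h2
        rw [lin_add, toK_add, bil_add_right, h1, h2, add_zero]
    · intro u u' h1 h2 v hv
      rw [lin_add, toK_add, bil_add_left, h1 v hv, h2 v hv, add_zero]
  exact key _ (ha i) _ (ha' j)

end Pool.Agent.H538R3.QF
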