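import Pool.Agent.H538R3.QF.Defs
import Pool.Agent.H554R2.Sem.Defs
import Pool.Agent.H554R2.Coin.Defs
import Pool.Agent.H554R2.Lin.Defs

/-!
# Quadratic identities over `F_2[X]`: there are no rectangles
-/

set_option autoImplicit false

open Finset

namespace Pool.Agent.H538R3.QF

open Pool.Agent.H554R2.Sem Pool.Agent.H554R2.Coin

lemma nr_bil_quad {m : ℕ} {R : Type} [CommRing R] (P P' Q Q' : Ix m → R) :
    bil (P - P') (Q - Q') = quad (P + Q) - quad (P' + Q) - quad (P + Q') + quad (P' + Q') := by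
  unfold bil quad
  rw [Fintype.sum_sum_type, ← Finset.sum_add_distrib, ← Finset.sum_sub_distrib,
    ← Finset.sum_sub_distrib, ← Finset.sum_add_distrib]
  refine Finset.sum_congr rfl fun i _ => ?_
  simp only [Pi.sub_apply, Pi.add_apply, Sum.swap_inl, Sum.swap_inr]
  ring

lemma nr_lin_add {n m b : ℕ} (w : Fin n → Co m b) (x y : Fin n → ZMod 2) :
    lin w (x + y) = lin w x + lin w y := by
  unfold lin
  rw [← Finset.sum_add_distrib]
  exact Finset.sum_congr rfl fun k _ => by rw [Pi.add_apply, add_smul]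

lemma nr_lin_sub {n m b : ℕ} (w : Fin n → Co m b) (x y : Fin n → ZMod 2) :
    lin w (x - y) = lin w x - lin w y := by
  unfold lin
  rw [← Finset.sum_sub_distrib]
  exact Finset.sum_congr rfl fun k _ => by rw [Pi.sub_apply, sub_smul]

/-- Vectors of polynomials. -/
noncomputable def nrP {m b : ℕ} (y : Co m b) : Ix m → Polynomial (ZMod 2) := fun p => pol (y p)

lemma nr_toK {m b : ℕ} (y : Co m b) :
    toK y = fun p => algebraMap (Polynomial (ZMod 2)) K (nrP y p) := rfl

lemma nr_bil_map {m : ℕ} (y z : Ix m → Polynomial (ZMod 2)) :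
    bil (fun p => algebraMap (Polynomial (ZMod 2)) K (y p))
      (fun p => algebraMap (Polynomial (ZMod 2)) K (z p)) =
      algebraMap (Polynomial (ZMod 2)) K (bil y z) := by
  unfold bil
  rw [map_sum]
  exact Finset.sum_congr rfl fun p _ => by rw [map_mul]

lemma nr_key {n m b d : ℕ} (w : Fin n → Co m b) (hw : Good w d) (c : Polynomial (ZMod 2))
    (A : Finset (Fin n)) (X Y : Finset (Fin n → ZMod 2))
    (hX : ∀ x ∈ X, ∀ i, i ∉ A → x i = 0) (hY : ∀ y ∈ Y, ∀ i ∈ A, y i = 0)
    (hq : ∀ x ∈ X, ∀ y ∈ Y, quad (fun p => pol (lin w (x + y) p)) = c)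
    (h1 : 2 ^ d ≤ X.card) (h2 : 2 ^ d ≤ Y.card) : False := by
  obtain ⟨x, hx, x', hx', y, hy, y', hy', hne⟩ := hw A X Y hX hY h1 h2
  apply hne
  have e : ∀ u v : Fin n → ZMod 2, nrP (lin w (u + v)) = nrP (lin w u) + nrP (lin w v) := by
    intro u v
    rw [nr_lin_add]
    funext p
    unfold nrP
    rw [Pi.add_apply, Pi.add_apply, map_add]
  have e' : ∀ u v : Fin n → ZMod 2, nrP (lin w (u - v)) = nrP (lin w u) - nrP (lin w v) := by
    intro u v
    rw [nr_lin_sub]
    funext p
    unfold nrP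
    rw [Pi.sub_apply, Pi.sub_apply, map_sub]
  rw [nr_toK, nr_toK, nr_bil_map, e', e', nr_bil_quad, ← e, ← e, ← e, ← e]
  have q : ∀ u ∈ X, ∀ v ∈ Y, quad (nrP (lin w (u + v))) = c := hq
  rw [q x hx y hy, q x' hx' y hy, q x hx y' hy', q x' hx' y' hy']
  simp

lemma nr_vec_inj {n : ℕ} : Function.Injective (vec : (Fin n → Bool) → Fin n → ZMod 2) := by
  intro x y h
  funext i
  have := congrFun h i
  unfold vec at this
  cases hx : x i <;> cases hy : y i <;> simp_all

lemma nr_vec_merge {n : ℕ} (A : Finset (Fin n)) (x y : Pt n) :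
    vec (merge A x y) = vec (mask A x) + vec (mask Aᶜ y) := by
  funext i
  unfold vec merge mask
  rw [Pi.add_apply]
  by_cases hi : i ∈ A
  · have hi' : i ∉ Aᶜ := by simpa using hi
    simp [hi]
  · have hi' : i ∈ Aᶜ := by simpa using hi
    simp [hi]

lemma nr_vec_mask {n : ℕ} (A : Finset (Fin n)) (x : Pt n) (i : Fin n) (hi : i ∉ A) :
    vec (mask A x) i = 0 := by
  unfold vec mask
  simp [hi]

lemma nr_quad {n m b : ℕ} {w : Fin n → Co m b} {c : Polynomial (ZMod 2)} {x : Fin n → Bool}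
    (h : fn w c x = true) : quad (fun p => pol (lin w (vec x) p)) = c := by
  unfold fn at h
  exact (@of_decide_eq_true _ (_) h).2

open Classical in
/-- TASK Q9 (QF/NoRect.lean): no rectangles. -/
theorem noRect {n m b d : ℕ} (w : Fin n → Co m b) (hw : Good w d) (c : Polynomial (ZMod 2)) :
    NoRect (univ.filter (fun x : Pt n => fn w c x = true)) (2 ^ d) := by
  intro A K' hK
  by_contra hcon
  push Not at hcon
  obtain ⟨h1, h2⟩ := hcon
  refine nr_key w hw c A ((K'.image (mask A)).image vec) ((K'.image (mask Aᶜ)).image vec)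
    ?_ ?_ ?_ ?_ ?_
  · intro x hx i hi
    simp only [Finset.mem_image] at hx
    obtain ⟨u, ⟨v, hv, rfl⟩, rfl⟩ := hx
    exact nr_vec_mask A v i hi
  · intro x hx i hi
    simp only [Finset.mem_image] at hx
    obtain ⟨u, ⟨v, hv, rfl⟩, rfl⟩ := hx
    exact nr_vec_mask Aᶜ v i (by simpa using hi)
  · intro x hx y hy
    simp only [Finset.mem_image] at hx hy
    obtain ⟨u, ⟨v, hv, rfl⟩, rfl⟩ := hx
    obtain ⟨u', ⟨v', hv', rfl⟩, rfl⟩ := hy
    rw [← nr_vec_merge]
    exact nr_quad (Finset.mem_filter.mp (hK v hv v' hv')).2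
  · rw [Finset.card_image_of_injective _ nr_vec_inj]
    convert h1
  · rw [Finset.card_image_of_injective _ nr_vec_inj]
    convert h2

/-- TASK Q10 (QF/NoRect.lean): no embedded rectangles. -/
theorem noEmbedded {n m b d : ℕ} (w : Fin n → Co m b) (hw : Good w d) (c : Polynomial (ZMod 2))
    (C : Finset (Pt n)) (hC : ∀ x ∈ C, fn w c x = true) {a b' g : ℕ}
    (R : Pool.Agent.H554R2.Lin.Rect C a b' g) (h : 2 ^ d ≤ R.X.card) : R.Y.card < 2 ^ d := by
  classical
  by_contra hcon
  push Not at hcon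
  have hAB : ∀ i ∈ R.A, i ∉ R.B := fun i hi hi' => Finset.disjoint_left.mp R.disj hi hi'
  refine nr_key w hw c R.A (R.X.image (fun x => vec (mask R.A x)))
    (R.Y.image (fun x => vec (mask R.Aᶜ x))) ?_ ?_ ?_ ?_ ?_
  · intro x hx i hi
    simp only [Finset.mem_image] at hx
    obtain ⟨v, hv, rfl⟩ := hx
    exact nr_vec_mask R.A v i hi
  · intro x hx i hi
    simp only [Finset.mem_image] at hx
    obtain ⟨v, hv, rfl⟩ := hx
    exact nr_vec_mask R.Aᶜ v i (by simpa using hi)
  · intro x hx y hy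
    simp only [Finset.mem_image] at hx hy
    obtain ⟨v, hv, rfl⟩ := hx
    obtain ⟨v', hv', rfl⟩ := hy
    rw [← nr_vec_merge]
    exact nr_quad (hC _ (R.mem v hv v' hv'))
  · rw [Finset.card_image_of_injOn]
    · exact h
    · intro x hx y hy hxy
      have := nr_vec_inj hxy
      funext i
      by_cases hi : i ∈ R.A
      · have := congrFun this i
        simpa [mask, hi] using this
      · rw [R.hX x hx i hi, R.hX y hy i hi]
  · rw [Finset.card_image_of_injOn]
    · exact hcon
    · intro x hx y hy hxy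
      have := nr_vec_inj hxy
      funext i
      by_cases hi : i ∈ R.A
      · rw [R.hY x hx i (hAB i hi), R.hY y hy i (hAB i hi)]
      · have := congrFun this i
        simpa [mask, hi] using this

end Pool.Agent.H538R3.QF
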