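import Pool.Agent.H538R3.QF.Defs
import Pool.Agent.H554R2.Sem.Defs
import Pool.Agent.H554R2.Coin.Defs
import Pool.Agent.H554R2.Lin.Defs

/-!
# Quadratic identities over `F_2[X]`: the most popular value, sensitivity
-/

set_option autoImplicit false

open Finset

namespace Pool.Agent.H538R3.QF

open Pool.Agent.H554R2.Sem Pool.Agent.H554R2.Coin

private theorem Q11_flip_even {n : ℕ} (x : Pt n) (i : Fin n) :
    EvenW (Pool.Agent.H554R2.Sem.flip x i) ↔ ¬ EvenW x := by
  unfold EvenW
  by_cases hi : x i = true
  · have hset : (univ.filter (fun j : Fin n => x j = true))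
        = insert i (univ.filter (fun j : Fin n => Pool.Agent.H554R2.Sem.flip x i j = true)) := by
      ext j
      simp only [mem_filter, mem_univ, true_and, mem_insert, Pool.Agent.H554R2.Sem.flip, Function.update_apply]
      by_cases hj : j = i
      · subst hj; simp [hi]
      · simp [hj]
    have hnot : i ∉ (univ.filter (fun j : Fin n => Pool.Agent.H554R2.Sem.flip x i j = true)) := by
      simp [Pool.Agent.H554R2.Sem.flip, hi]
    rw [hset, card_insert_of_notMem hnot, Nat.even_add_one, not_not]
  · have hi' : x i = false := by simpa using hi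
    have hset : (univ.filter (fun j : Fin n => Pool.Agent.H554R2.Sem.flip x i j = true))
        = insert i (univ.filter (fun j : Fin n => x j = true)) := by
      ext j
      simp only [mem_filter, mem_univ, true_and, mem_insert, Pool.Agent.H554R2.Sem.flip, Function.update_apply]
      by_cases hj : j = i
      · subst hj; simp [hi']
      · simp [hj]
    have hnot : i ∉ (univ.filter (fun j : Fin n => x j = true)) := by
      simp [hi']
    rw [hset, card_insert_of_notMem hnot, Nat.even_add_one]

private theorem Q11_flip_inj {n : ℕ} (i : Fin n) :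
    Function.Injective (fun x : Pt n => Pool.Agent.H554R2.Sem.flip x i) := by
  intro x y h
  funext j
  have hj := congrFun h j
  simp only [Pool.Agent.H554R2.Sem.flip, Function.update_apply] at hj
  by_cases hji : j = i
  · rw [if_pos hji, if_pos hji] at hj
    rw [hji]
    exact Bool.not_inj hj
  · rwa [if_neg hji, if_neg hji] at hj

private theorem Q11_mul_mem {b : ℕ} (y z : Fin b → ZMod 2) :
    pol y * pol z ∈ Polynomial.degreeLT (ZMod 2) (2 * b) := by
  have hy : pol y ∈ Polynomial.degreeLT (ZMod 2) b :=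
    ((Polynomial.degreeLTEquiv (ZMod 2) b).symm y).2
  have hz : pol z ∈ Polynomial.degreeLT (ZMod 2) b :=
    ((Polynomial.degreeLTEquiv (ZMod 2) b).symm z).2
  rw [Polynomial.mem_degreeLT] at hy hz
  by_cases h0 : pol y * pol z = 0
  · rw [h0]; exact Submodule.zero_mem _
  have hy0 : pol y ≠ 0 := left_ne_zero_of_mul h0
  have hz0 : pol z ≠ 0 := right_ne_zero_of_mul h0
  rw [← Polynomial.natDegree_lt_iff_degree_lt hy0] at hy
  rw [← Polynomial.natDegree_lt_iff_degree_lt hz0] at hz
  rw [Polynomial.mem_degreeLT, ← Polynomial.natDegree_lt_iff_degree_lt h0]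
  have := Polynomial.natDegree_mul_le (p := pol y) (q := pol z)
  omega

open Classical in
/-- TASK Q11 (QF/Value.lean): the most popular value. -/
theorem exists_value {n m b : ℕ} (hn : 1 ≤ n) (hb : 1 ≤ b) (w : Fin n → Co m b) :
    ∃ c : Polynomial (ZMod 2), c.natDegree < 2 * b ∧
      2 ^ n ≤ 2 ^ (2 * b + 1) * (univ.filter (fun x : Pt n => fn w c x = true)).card := by
  set i0 : Fin n := ⟨0, by omega⟩
  set E : Finset (Pt n) := univ.filter (fun x => EvenW x) with hE
  have hE2 : 2 ^ n ≤ 2 * E.card := by
    have h1 : (univ.filter (fun x : Pt n => ¬ EvenW x)).card ≤ E.card := by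
      apply Finset.card_le_card_of_injOn (fun x => Pool.Agent.H554R2.Sem.flip x i0)
      · intro x hx
        rw [Finset.mem_coe, Finset.mem_filter] at hx
        rw [Finset.mem_coe, hE, Finset.mem_filter]
        exact ⟨mem_univ _, (Q11_flip_even x i0).mpr hx.2⟩
      · exact (Q11_flip_inj i0).injOn
    have h2 := Finset.card_filter_add_card_filter_not (s := (univ : Finset (Pt n))) (fun x => EvenW x)
    rw [Finset.card_univ, Fintype.card_fun, Fintype.card_bool, Fintype.card_fin] at h2
    have h3 : E.card + (univ.filter (fun x : Pt n => ¬ EvenW x)).card = 2 ^ n := h2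
    omega
  set val : Pt n → Polynomial (ZMod 2) := fun x => quad (fun p => pol (lin w (vec x) p)) with hval
  have hmem : ∀ x, val x ∈ Polynomial.degreeLT (ZMod 2) (2 * b) := by
    intro x
    rw [hval]
    exact Submodule.sum_mem _ fun i _ => Q11_mul_mem _ _
  set v : Pt n → (Fin (2 * b) → ZMod 2) := fun x => Polynomial.degreeLTEquiv (ZMod 2) (2 * b) ⟨val x, hmem x⟩ with hv
  have hpig : ∃ y : Fin (2 * b) → ZMod 2, E.card ≤ 2 ^ (2 * b) * (E.filter (fun x => v x = y)).card := by
    by_contra hcon
    push Not at hcon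
    have h1 : E.card = ∑ y : Fin (2 * b) → ZMod 2, (E.filter (fun x => v x = y)).card :=
      Finset.card_eq_sum_card_fiberwise (fun x _ => Finset.mem_coe.mpr (mem_univ _))
    have h2 : ∑ y : Fin (2 * b) → ZMod 2, 2 ^ (2 * b) * (E.filter (fun x => v x = y)).card <
        ∑ y : Fin (2 * b) → ZMod 2, E.card :=
      Finset.sum_lt_sum_of_nonempty univ_nonempty fun y _ => hcon y
    rw [← Finset.mul_sum, ← h1, Finset.sum_const, Finset.card_univ, Fintype.card_fun, ZMod.card,
      Fintype.card_fin, smul_eq_mul] at h2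
    exact absurd h2 (lt_irrefl _)
  obtain ⟨y, hy⟩ := hpig
  set c : Polynomial (ZMod 2) := (((Polynomial.degreeLTEquiv (ZMod 2) (2 * b)).symm y :
    Polynomial.degreeLT (ZMod 2) (2 * b)) : Polynomial (ZMod 2)) with hc
  refine ⟨c, ?_, ?_⟩
  · have hcm : c ∈ Polynomial.degreeLT (ZMod 2) (2 * b) :=
      ((Polynomial.degreeLTEquiv (ZMod 2) (2 * b)).symm y).2
    rw [Polynomial.mem_degreeLT] at hcm
    by_cases h0 : c = 0
    · rw [h0, Polynomial.natDegree_zero]; omega
    · exact (Polynomial.natDegree_lt_iff_degree_lt h0).mpr hcm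
  · have hsub : E.filter (fun x => v x = y) ⊆ univ.filter (fun x : Pt n => fn w c x = true) := by
      intro x hx
      rw [Finset.mem_filter, hE, Finset.mem_filter] at hx
      rw [Finset.mem_filter]
      refine ⟨mem_univ _, ?_⟩
      unfold fn
      rw [decide_eq_true_eq]
      refine ⟨hx.1.2, ?_⟩
      have h1 : (Polynomial.degreeLTEquiv (ZMod 2) (2 * b)).symm y = ⟨val x, hmem x⟩ := by
        rw [← hx.2, hv]
        exact LinearEquiv.symm_apply_apply _ _
      rw [hc, h1]
    have h3 := Finset.card_le_card hsub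
    calc 2 ^ n ≤ 2 * E.card := hE2
      _ ≤ 2 * (2 ^ (2 * b) * (E.filter (fun x => v x = y)).card) := Nat.mul_le_mul_left _ hy
      _ = 2 ^ (2 * b + 1) * (E.filter (fun x => v x = y)).card := by rw [pow_succ]; ring
      _ ≤ _ := Nat.mul_le_mul_left _ h3

/-- TASK Q12 (QF/Value.lean): the function changes if a bit is changed. -/
theorem fn_flip {n m b : ℕ} (w : Fin n → Co m b) (c : Polynomial (ZMod 2)) (x : Pt n)
    (i : Fin n) (h : fn w c x = true) : fn w c (Pool.Agent.H554R2.Sem.flip x i) ≠ true := by
  intro h2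
  simp only [fn, decide_eq_true_eq] at h h2
  exact (Q11_flip_even x i).mp h2.1 h.1

end Pool.Agent.H538R3.QF
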