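import Pool.Agent.H538R3.QF.Det
import Pool.Agent.H538R3.QF.Exists
import Pool.Agent.H538R3.QF.GoodOf
import Pool.Agent.H538R3.QF.NoRect
import Pool.Agent.H538R3.QF.Value
import Pool.Agent.H554R2.Cnf.Strong
import Pool.Agent.H554R2.Cnf.FinalDefs
import Pool.Agent.H554R2.Lin.Main
import Pool.Agent.H554R2.Lin.Blocks
import Pool.Agent.H554R2.Compl.Main

/-!
# Assembly
-/

set_option autoImplicit false

open Finset

namespace Pool.Agent.H538R3.QF

open Pool.Agent.H554R2.Sem Pool.Agent.H554R2.Coin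
open Pool.Agent.H554R2.Cnf (fastPts lowerStrong)
open Pool.Agent.H554R2.Compl (lift lift_acc lift_queries)

/-- What the randomised programs and the deterministic program for `f` do. -/
def EasyFor {n : ℕ} (D : ℕ) (f : Pt n → Bool) : Prop :=
  (∀ t : ℕ, ∃ (k : ℕ) (U : (Fin k → Bool) → BP (Fin n) Bool) (v : (Fin k → Bool) → Pt n → Bool),
    2 ^ k ≤ D * (n + 1) * 2 ^ t ∧
    (∀ r, Fintype.card (U r).State ≤ (D * (n + 1) * 2 ^ t) ^ D) ∧
    (∀ r x, (U r).Comp x (List.finRange n) (v r x)) ∧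
    (∀ r x, f x = true → v r x = true) ∧
    ∀ x, f x = false → 2 ^ t * Nat.card {r // v r x = true} ≤ 2 ^ k) ∧
  ∃ P : BP (Fin n) Bool, Fintype.card P.State ≤ (D * (n + 1)) ^ D ∧
    ∀ x, ∃ l : List (Fin n), (∀ i, l.count i ≤ D * (n + 1)) ∧ P.Comp x l (f x)

theorem easyFor {n m b D : ℕ} (hb : 1 ≤ b) (hbn : b ≤ n + 1) (w : Fin n → Co m b)
    (c : Polynomial (ZMod 2)) (hc : c.natDegree < 2 * b) (hD : 2 * m + 16 ≤ D) :
    EasyFor D (fn w c) := by
  refine ⟨fun t => ?_, ?_⟩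
  · obtain ⟨k, U, v, h1, h2, h3, h4, h5⟩ := easy hb w c hc t
    have hX : 8 * b * 2 ^ t ≤ D * (n + 1) * 2 ^ t := by
      refine Nat.mul_le_mul_right _ ?_
      exact Nat.mul_le_mul (by omega) hbn
    refine ⟨k, U, v, h1.trans hX, fun r => (h2 r).trans ?_, h3, h4, h5⟩
    obtain ⟨X, hXd⟩ : ∃ X : ℕ, X = D * (n + 1) * 2 ^ t := ⟨_, rfl⟩
    rw [← hXd] at hX ⊢
    have hX1 : 1 ≤ X := by
      rw [hXd]
      have h0 : 0 < D := by omega
      exact Nat.succ_le_of_lt (by positivity)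
    have h6 : (n + 1) * 2 ≤ X := by
      rw [hXd]
      have h7 : 1 ≤ 2 ^ t := Nat.one_le_two_pow
      calc (n + 1) * 2 = 2 * (n + 1) * 1 := by ring
        _ ≤ D * (n + 1) * 2 ^ t := Nat.mul_le_mul (Nat.mul_le_mul_right _ (by omega)) h7
    calc (n + 1) * ((8 * b * 2 ^ t) ^ (2 * m) * 2) = (8 * b * 2 ^ t) ^ (2 * m) * ((n + 1) * 2) := by
          ring
      _ ≤ X ^ (2 * m) * X := Nat.mul_le_mul (Nat.pow_le_pow_left hX _) h6
      _ = X ^ (2 * m + 1) := (pow_succ _ _).symm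
      _ ≤ X ^ D := Nat.pow_le_pow_right hX1 (by omega)
  · obtain ⟨P, h1, h2⟩ := det_program hb w c hc
    refine ⟨P, h1.trans ?_, fun x => ?_⟩
    · obtain ⟨X, hXd⟩ : ∃ X : ℕ, X = D * (n + 1) := ⟨_, rfl⟩
      rw [← hXd]
      have hX2 : 2 ≤ X := by
        rw [hXd]
        calc 2 ≤ D * 1 := by omega
          _ ≤ D * (n + 1) := Nat.mul_le_mul_left _ (by omega)
      have hX : 16 * b ≤ X := by
        rw [hXd]
        exact Nat.mul_le_mul (by omega) hbn
      have h6 : (n + 1) * 2 ≤ X := by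
        rw [hXd, mul_comm]
        exact Nat.mul_le_mul_right _ (by omega)
      have h7 : 16 * b * ((n + 1) * ((16 * b) ^ (2 * m) * 2)) ≤ X ^ (2 * m + 2) := by
        calc 16 * b * ((n + 1) * ((16 * b) ^ (2 * m) * 2))
            = (16 * b) ^ (2 * m) * (16 * b) * ((n + 1) * 2) := by ring
          _ ≤ X ^ (2 * m) * X * X :=
            Nat.mul_le_mul (Nat.mul_le_mul (Nat.pow_le_pow_left hX _) hX) h6
          _ = X ^ (2 * m + 2) := by ring
      have h8 : 1 ≤ X ^ (2 * m + 2) := Nat.one_le_pow _ _ (by omega)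
      calc 16 * b * ((n + 1) * ((16 * b) ^ (2 * m) * 2)) + 1 ≤ X ^ (2 * m + 2) * 2 := by omega
        _ ≤ X ^ (2 * m + 2) * X := Nat.mul_le_mul_left _ hX2
        _ = X ^ (2 * m + 3) := (pow_succ _ _).symm
        _ ≤ X ^ D := Nat.pow_le_pow_right (by omega) (by omega)
    · obtain ⟨l, h3, h4⟩ := h2 x
      refine ⟨l, fun i => (h3 i).trans ?_, h4⟩
      exact Nat.mul_le_mul (by omega) hbn

/-- A good function. -/
theorem exists_fn {n m b d : ℕ} (hn : 1 ≤ n) (hb : 1 ≤ b) (hbn : n ≤ 2 * m * b)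
    (hd : 3 * n + d + b * (2 * m) ^ 2 < 2 * d ^ 2) :
    ∃ (w : Fin n → Co m b) (c : Polynomial (ZMod 2)), c.natDegree < 2 * b ∧ Good w d ∧
      2 ^ n ≤ 2 ^ (2 * b + 1) * Nat.card {x : Pt n // fn w c x = true} := by
  classical
  obtain ⟨w, hw⟩ := exists_good hbn hd
  obtain ⟨c, hc1, hc2⟩ := exists_value hn hb w
  refine ⟨w, c, hc1, good_of w d hw, ?_⟩
  rw [Nat.card_eq_fintype_card, Fintype.card_subtype]
  exact hc2

/-- The numbers for the first theorem. -/
theorem numA {n m : ℕ} (hm : m = 10 ^ 9) (hn : 10 ^ 40 ≤ n) :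
    n ≤ 2 * m * (n / (2 * m) + 1) ∧
    3 * n + n / 10 ^ 8 + (n / (2 * m) + 1) * (2 * m) ^ 2 < 2 * (n / 10 ^ 8) ^ 2 ∧
    2 * (n / (2 * m) + 1) + 1 ≤ n / 10 ^ 8 := by
  have hm2 : 2 * m = 2000000000 := by omega
  rw [hm2]
  have h8 : (10 : ℕ) ^ 8 = 100000000 := by norm_num
  have h40 : (10 : ℕ) ^ 40 = 10000000000000000000000000000000000000000 := by norm_num
  rw [h8]
  rw [h40] at hn
  refine ⟨by omega, ?_, by omega⟩
  obtain ⟨d, hd⟩ : ∃ d : ℕ, d = n / 100000000 := ⟨_, rfl⟩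
  rw [← hd]
  have h1 : n < 100000000 * (d + 1) := by omega
  have h2 : 10000000000000000000000000000000 ≤ d := by omega
  have h3 : (n / 2000000000 + 1) * 2000000000 ^ 2 ≤ 2000000000 * n + 2000000000 ^ 2 := by
    have : n / 2000000000 * 2000000000 ≤ n := Nat.div_mul_le_self n _
    nlinarith
  have h4 : 3 * n + d + (2000000000 * n + 2000000000 ^ 2) < 2 * d ^ 2 := by nlinarith
  omega

theorem finalA : ∃ D : ℕ, 0 < D ∧ ∀ n : ℕ, ∃ f : Pt n → Bool, EasyFor D f ∧
    ∀ P : NBP (Fin n), (∀ x l, P.Accepting x l → f x = true) →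
      Nat.card {x // f x = true} ≤
        2 ^ (n / D) * Nat.card {x // ∃ l, P.Accepting x l ∧
          Pool.Agent.H554R2.Cnf.Fast (n / D) P l} →
      2 ^ (n / D) ≤ Fintype.card P.State := by
  classical
  obtain ⟨n0, hn0⟩ := lowerStrong
  obtain ⟨m, hm⟩ : ∃ m : ℕ, m = 10 ^ 9 := ⟨_, rfl⟩
  obtain ⟨D, hD⟩ : ∃ D : ℕ, D = 10 ^ 40 + n0 + 2 * m + 16 := ⟨_, rfl⟩
  have hD0 : 0 < D := by omega
  have hDm : 2 * m + 16 ≤ D := by omega
  have hD40 : 10 ^ 40 ≤ D := by omega
  have hm0 : 0 < 2 * m := by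
    rw [hm]
    norm_num
  refine ⟨D, hD0, fun n => ?_⟩
  have hbn : n / (2 * m) + 1 ≤ n + 1 := by
    have := Nat.div_le_self n (2 * m)
    omega
  have hb1 : 1 ≤ n / (2 * m) + 1 := Nat.le_add_left 1 _
  rcases Nat.lt_or_ge n D with hn | hn
  · refine ⟨fn (m := m) (b := n / (2 * m) + 1) (fun _ _ _ => 0) 0,
      easyFor hb1 hbn _ _ ?_ hDm, fun P _ _ => ?_⟩
    · rw [Polynomial.natDegree_zero]
      exact Nat.mul_pos (by norm_num) hb1
    · rw [Nat.div_eq_of_lt hn]
      exact Fintype.card_pos_iff.2 ⟨P.start⟩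
  · obtain ⟨ha, hb, hc⟩ := numA (n := n) hm (by omega)
    have hn1 : 1 ≤ n := by omega
    obtain ⟨w, c, h1, h2, h3⟩ := exists_fn (m := m) (b := n / (2 * m) + 1) (d := n / 10 ^ 8)
      hn1 hb1 ha hb
    refine ⟨fn w c, easyFor hb1 hbn _ _ h1 hDm, fun P hP hl => ?_⟩
    set C : Finset (Pt n) := univ.filter (fun x : Pt n => fn w c x = true) with hC
    have hCc : Nat.card {x : Pt n // fn w c x = true} = C.card := by
      rw [Nat.card_eq_fintype_card, Fintype.card_subtype]
    rw [hCc] at h3 hl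
    have hCpos : 0 < C.card := by
      rcases Nat.eq_zero_or_pos C.card with h | h
      · rw [h, mul_zero] at h3
        have : 0 < 2 ^ n := by positivity
        omega
      · exact h
    have h4 : n / D ≤ n / 10 ^ 8 :=
      Nat.div_le_div_left (le_trans (by norm_num) hD40) (by norm_num)
    have h5 := hn0 n (by omega) C hCpos (by
        intro x hx i hxi
        rw [hC, mem_filter] at hx hxi
        exact fn_flip w c x i hx.2 hxi.2) (by
        have hCR : (0 : ℝ) < C.card := by exact_mod_cast hCpos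
        have h6 : (2 : ℝ) ^ n ≤ 2 ^ (n / 10 ^ 8) * C.card := by
          have h7 : 2 ^ n ≤ 2 ^ (n / 10 ^ 8) * C.card :=
            h3.trans (Nat.mul_le_mul_right _ (Nat.pow_le_pow_right (by norm_num) hc))
          exact_mod_cast h7
        have h8 := Real.logb_le_logb_of_le (b := 2) (by norm_num) (by positivity) h6
        rw [Real.logb_pow, Real.logb_self_eq_one (by norm_num),
          Real.logb_mul (by positivity) hCR.ne', Real.logb_pow,
          Real.logb_self_eq_one (by norm_num)] at h8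
        have h9 : ((n / 10 ^ 8 : ℕ) : ℝ) ≤ n / 10 ^ 8 := by
          have := @Nat.cast_div_le ℝ _ _ _ n (10 ^ 8)
          refine this.trans (le_of_eq ?_)
          norm_num
        have h10 : (1 : ℝ) / 100000000 * n = n / 10 ^ 8 := by
          norm_num
          ring
        rw [h10]
        linarith) (noRect w h2 c) Empty (fun e => e.elim) (lift P) (fun x l h => by
        rw [hC, mem_filter]
        exact ⟨mem_univ _, hP x l ((lift_acc P _ x l).1 h)⟩) (by
      refine hl.trans ?_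
      refine Nat.mul_le_mul (Nat.pow_le_pow_right (by norm_num) h4) ?_
      rw [Nat.card_eq_fintype_card, Fintype.card_subtype]
      refine card_le_card (fun x hx => ?_)
      obtain ⟨l, hacc, hf⟩ := (mem_filter.1 hx).2
      unfold fastPts
      rw [mem_filter]
      refine ⟨mem_univ _, l, (lift_acc P _ x l).2 hacc, ?_⟩
      rcases hf with h | h
      · left
        have e : reread (lift P) l
            = univ.filter (fun i => 2 ≤ (l.filterMap P.query).count i) := by
          unfold reread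
          rw [lift_queries]
        rw [e]
        exact le_trans h h4
      · right
        rw [lift_queries]
        omega)
    exact (Nat.pow_le_pow_right (by norm_num) h4).trans h5

end Pool.Agent.H538R3.QF
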