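import Pool.Agent.H538R3.QF.FinA

/-!
# Assembly for deterministic programs of length `k n`
-/

set_option autoImplicit false

open Finset

namespace Pool.Agent.H538R3.QF

open Pool.Agent.H554R2.Sem Pool.Agent.H554R2.Coin
open Pool.Agent.H554R2.Lin (Blk Rect main_rect blocks)

/-- The program with the outputs negated. -/
def negB {ι : Type} (P : BP ι Bool) : BP ι Bool where
  State := P.State
  start := P.start
  node := fun s => match P.node s with
    | Sum.inl z => Sum.inl z
    | Sum.inr b => Sum.inr (!b)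

theorem negB_walk {ι : Type} (P : BP ι Bool) (x : ι → Bool) (l : List ι) (s v : P.State) :
    (negB P).Walk x s l v ↔ P.Walk x s l v := by
  induction l generalizing s with
  | nil => exact Iff.rfl
  | cons i l ih =>
    constructor
    · rintro ⟨nxt, h1, h2⟩
      have h1' : P.node s = Sum.inl (i, nxt) := by
        change (match P.node s with
          | Sum.inl z => Sum.inl z
          | Sum.inr b => Sum.inr (!b)) = Sum.inl (i, nxt) at h1
        cases h : P.node s with
        | inl z => rw [h] at h1; exact h1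
        | inr b => rw [h] at h1; cases h1
      exact ⟨nxt, h1', (ih (nxt (x i))).1 h2⟩
    · rintro ⟨nxt, h1, h2⟩
      refine ⟨nxt, ?_, (ih (nxt (x i))).2 h2⟩
      change (match P.node s with
          | Sum.inl z => Sum.inl z
          | Sum.inr b => Sum.inr (!b)) = Sum.inl (i, nxt)
      rw [h1]

theorem negB_comp {ι : Type} (P : BP ι Bool) (x : ι → Bool) (l : List ι) (b : Bool) :
    (negB P).Comp x l b ↔ P.Comp x l (!b) := by
  constructor
  · rintro ⟨v, h1, h2⟩
    refine ⟨v, (negB_walk P x l _ v).1 h1, ?_⟩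
    change (match P.node v with
          | Sum.inl z => Sum.inl z
          | Sum.inr b => Sum.inr (!b)) = Sum.inr b at h2
    cases h : P.node v with
    | inl z => rw [h] at h2; cases h2
    | inr c =>
      rw [h] at h2
      have h3 : (!c) = b := Sum.inr.inj h2
      rw [← h3, Bool.not_not]
  · rintro ⟨v, h1, h2⟩
    refine ⟨v, (negB_walk P x l _ v).2 h1, ?_⟩
    change (match P.node v with
          | Sum.inl z => Sum.inl z
          | Sum.inr b => Sum.inr (!b)) = Sum.inr b
    rw [h2]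
    exact congrArg Sum.inr (Bool.not_not b)

/-- The numbers for the second theorem. -/
theorem numB {n m Q N : ℕ} (hm : m = 4 * N) (hQ : 0 < Q) (hN : 0 < N)
    (hn : 32 * Q ^ 2 * (2 * m + 10) + 32 * N + 8 * Q * (2 * m) ≤ n) :
    n ≤ 2 * m * (n / (2 * m) + 1) ∧
    3 * n + n / (2 * Q) + (n / (2 * m) + 1) * (2 * m) ^ 2 < 2 * (n / (2 * Q)) ^ 2 ∧
    2 * (n / (2 * m) + 1) + 1 ≤ n / (2 * N) := by
  have hm0 : 0 < 2 * m := by omega
  have h1 : 2 * m * (n / (2 * m)) ≤ n := Nat.mul_div_le n (2 * m)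
  have h2 : n < 2 * m * (n / (2 * m) + 1) := Nat.lt_mul_div_succ n hm0
  refine ⟨h2.le, ?_, ?_⟩
  · obtain ⟨d, hd⟩ : ∃ d : ℕ, d = n / (2 * Q) := ⟨_, rfl⟩
    have h3 : n < 2 * Q * (d + 1) := by
      rw [hd]
      exact Nat.lt_mul_div_succ n (by omega)
    have h3' : 2 * Q * d ≤ n := by
      rw [hd]
      exact Nat.mul_div_le n (2 * Q)
    have h4 : (n / (2 * m) + 1) * (2 * m) ^ 2 ≤ 2 * m * n + (2 * m) ^ 2 := by
      calc (n / (2 * m) + 1) * (2 * m) ^ 2 = 2 * m * (2 * m * (n / (2 * m))) + (2 * m) ^ 2 := by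
            ring
        _ ≤ 2 * m * n + (2 * m) ^ 2 := Nat.add_le_add_right (Nat.mul_le_mul_left _ h1) _
    rw [← hd]
    -- `d` is large
    have h5 : 8 * Q * (2 * m + 10) ≤ d := by
      by_contra h
      push Not at h
      have h6 : d + 1 ≤ 8 * Q * (2 * m + 10) := h
      have h7 : 2 * Q * (d + 1) ≤ 2 * Q * (8 * Q * (2 * m + 10)) := Nat.mul_le_mul_left _ h6
      have h8 : 2 * Q * (8 * Q * (2 * m + 10)) = 16 * Q ^ 2 * (2 * m + 10) := by ring
      have h9 : 16 * Q ^ 2 * (2 * m + 10) ≤ 32 * Q ^ 2 * (2 * m + 10) :=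
        Nat.mul_le_mul_right _ (Nat.mul_le_mul_right _ (by norm_num))
      omega
    have h10 : 1 ≤ d := by
      have : 0 < 8 * Q * (2 * m + 10) := by positivity
      omega
    -- `n < 4 Q d`
    have h11 : n < 4 * Q * d := by nlinarith
    have h12 : (2 * m + 3) * n + d + (2 * m) ^ 2 < 2 * d ^ 2 := by
      have h13 : (2 * m + 3) * n ≤ (2 * m + 3) * (4 * Q * d) := Nat.mul_le_mul_left _ h11.le
      have h14 : (2 * m + 3) * (4 * Q * d) + d + (2 * m) ^ 2 < 2 * d ^ 2 := by
        have h15 : (2 * m) ^ 2 ≤ (2 * m) * d := by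
          rw [pow_two]
          refine Nat.mul_le_mul_left _ ?_
          nlinarith
        have h16 : 8 * Q * (2 * m + 10) * d ≤ d * d := Nat.mul_le_mul_right _ h5
        nlinarith
      omega
    nlinarith
  · have h3 : n / (2 * m) ≤ n / (8 * N) := by
      rw [hm]
      refine le_of_eq ?_
      congr 1
      ring
    have h4 : n / (8 * N) * (8 * N) ≤ n := Nat.div_mul_le_self n _
    rw [Nat.le_div_iff_mul_le (by omega)]
    have h5 : (2 * (n / (2 * m) + 1) + 1) * (2 * N) ≤ (2 * (n / (8 * N) + 1) + 1) * (2 * N) :=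
      Nat.mul_le_mul_right _ (by omega)
    have h6 : (2 * (n / (8 * N) + 1) + 1) * (2 * N) = n / (8 * N) * (4 * N) + 6 * N := by ring
    have h7 : n / (8 * N) * (8 * N) = 2 * (n / (8 * N) * (4 * N)) := by ring
    omega

theorem finalB (k : ℕ) : ∃ D : ℕ, 0 < D ∧ ∀ n : ℕ, ∃ f : Pt n → Bool, EasyFor D f ∧
    ∀ P : BP (Fin n) Bool, Fintype.card P.State < 2 ^ (n / D) →
      (∀ x, f x = false → ¬ ∃ l, P.Comp x l true) →
      2 ^ (n / D) * Nat.card {x // ∃ l, P.Comp x l true ∧ l.length ≤ k * n} <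
        Nat.card {x // f x = true} := by
  classical
  obtain ⟨Q, r, N, hQ, hr, hN, hmain⟩ := main_rect (k + 1)
  obtain ⟨m, hm⟩ : ∃ m : ℕ, m = 4 * N := ⟨_, rfl⟩
  obtain ⟨E, hE⟩ : ∃ E : ℕ, E = 32 * Q ^ 2 * (2 * m + 10) + 32 * N + 8 * Q * (2 * m) := ⟨_, rfl⟩
  obtain ⟨D, hD⟩ : ∃ D : ℕ, D = 2 * N * (r + 2) + N + r + E + 2 * m + 16 := ⟨_, rfl⟩
  have hD0 : 0 < D := by omega
  have hDm : 2 * m + 16 ≤ D := by omega
  have hm0 : 0 < 2 * m := by omega
  refine ⟨D, hD0, fun n => ?_⟩
  have hbn : n / (2 * m) + 1 ≤ n + 1 := by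
    have := Nat.div_le_self n (2 * m)
    omega
  have hb1 : 1 ≤ n / (2 * m) + 1 := Nat.le_add_left 1 _
  rcases Nat.lt_or_ge n D with hn | hn
  · refine ⟨fn (m := m) (b := n / (2 * m) + 1) (fun _ _ _ => 0) 0,
      easyFor hb1 hbn _ _ ?_ hDm, fun P hP _ => ?_⟩
    · rw [Polynomial.natDegree_zero]
      exact Nat.mul_pos (by norm_num) hb1
    · rw [Nat.div_eq_of_lt hn, pow_zero] at hP
      have : 0 < Fintype.card P.State := Fintype.card_pos_iff.2 ⟨P.start⟩
      omega
  · obtain ⟨ha, hb, hc⟩ := numB (n := n) hm hQ hN (by omega)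
    have hn1 : 1 ≤ n := by omega
    obtain ⟨w, c, h1, h2, h3⟩ := exists_fn (m := m) (b := n / (2 * m) + 1) (d := n / (2 * Q))
      hn1 hb1 ha hb
    refine ⟨fn w c, easyFor hb1 hbn _ _ h1 hDm, fun P hPs hPf => ?_⟩
    by_contra hneg
    push Not at hneg
    set G : Finset (Pt n) := univ.filter (fun x => ∃ l, P.Comp x l true ∧ l.length ≤ k * n)
      with hG
    have hGc : Nat.card {x // ∃ l, P.Comp x l true ∧ l.length ≤ k * n} = G.card := by
      rw [Nat.card_eq_fintype_card, Fintype.card_subtype]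
    rw [hGc] at hneg
    -- blocks
    set s := k * n / r + 1 with hs
    have hs1 : k * n ≤ r * s := by
      have := Nat.lt_mul_div_succ (k * n) hr
      rw [hs]; exact this.le
    have hs2 : r * s ≤ (k + 1) * n := by
      have h1 := Nat.mul_div_le (k * n) r
      have h2 : r ≤ n := by omega
      rw [hs]; nlinarith
    obtain ⟨B, hB1, hB2⟩ := blocks (negB P) r s hr G (by
      intro x hx
      obtain ⟨l, hl, hl2⟩ := (Finset.mem_filter.1 hx).2
      exact ⟨l, (negB_comp P x l false).2 hl, hl2.trans hs1⟩)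
    have hcs : Fintype.card (negB P).State = Fintype.card P.State := rfl
    -- the size
    have hexp : 2 * (n / (2 * m) + 1) + 1 + (n / D) * (r + 2) ≤ n / N := by
      have e1 : (n / D) * (r + 2) ≤ n / (2 * N) := by
        rw [Nat.le_div_iff_mul_le (by omega)]
        calc (n / D) * (r + 2) * (2 * N) = (n / D) * (2 * N * (r + 2)) := by ring
          _ ≤ (n / D) * D := Nat.mul_le_mul_left _ (by omega)
          _ ≤ n := Nat.div_mul_le_self n D
      have e2 : n / (2 * N) + n / (2 * N) ≤ n / N := by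
        rw [Nat.le_div_iff_mul_le hN]
        have := Nat.div_mul_le_self n (2 * N)
        nlinarith
      omega
    have hKbig : 2 ^ n ≤ 2 ^ (n / N) * B.K.card := by
      calc 2 ^ n ≤ 2 ^ (2 * (n / (2 * m) + 1) + 1) * Nat.card {x : Pt n // fn w c x = true} := h3
        _ ≤ 2 ^ (2 * (n / (2 * m) + 1) + 1) * (2 ^ (n / D) * G.card) :=
            Nat.mul_le_mul_left _ hneg
        _ ≤ 2 ^ (2 * (n / (2 * m) + 1) + 1) * (2 ^ (n / D) *
              ((2 ^ (n / D)) ^ (r + 1) * B.K.card)) := by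
            apply Nat.mul_le_mul_left
            apply Nat.mul_le_mul_left
            refine hB1.trans (Nat.mul_le_mul_right _ ?_)
            rw [hcs]
            exact Nat.pow_le_pow_left hPs.le _
        _ = 2 ^ (2 * (n / (2 * m) + 1) + 1 + (n / D) * (r + 2)) * B.K.card := by
            rw [← pow_mul, ← mul_assoc, ← mul_assoc, ← pow_add, ← pow_add]
            congr 2
            ring
        _ ≤ 2 ^ (n / N) * B.K.card :=
            Nat.mul_le_mul_right _ (Nat.pow_le_pow_right (by norm_num) hexp)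
    obtain ⟨a, b, g, ha', hb', hga, hgb, ⟨R⟩⟩ := hmain n (by omega) s hs2 B hKbig
    have hK : ∀ x ∈ B.K, fn w c x = true := by
      intro x hx
      by_contra h4
      rw [Bool.not_eq_true] at h4
      obtain ⟨l, hl⟩ := hB2 x hx
      exact hPf x h4 ⟨l, (negB_comp P x l false).1 hl⟩
    -- the sides are large
    have hside : ∀ a' : ℕ, n ≤ Q * a' → 100 * g ≤ a' → ∀ M : ℕ, 2 ^ a' ≤ 2 ^ g * M →
        2 ^ (n / (2 * Q)) ≤ M := by
      intro a' h5 h6 M h7
      have h8 : n / (2 * Q) ≤ a' - g := by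
        have h9 : 2 * Q * (n / (2 * Q)) ≤ n := Nat.mul_div_le n (2 * Q)
        have h10 : Q * (2 * (n / (2 * Q))) ≤ Q * a' := by
          calc Q * (2 * (n / (2 * Q))) = 2 * Q * (n / (2 * Q)) := by ring
            _ ≤ n := h9
            _ ≤ Q * a' := h5
        have h11 : 2 * (n / (2 * Q)) ≤ a' := Nat.le_of_mul_le_mul_left h10 hQ
        omega
      have h12 : 2 ^ g * 2 ^ (a' - g) ≤ 2 ^ g * M := by
        rw [← pow_add]
        have : g + (a' - g) = a' := by omega
        rw [this]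
        exact h7
      exact (Nat.pow_le_pow_right (by norm_num) h8).trans
        (Nat.le_of_mul_le_mul_left h12 (by positivity))
    have h13 := noEmbedded w h2 c B.K hK R (hside a ha' hga _ R.nX)
    have h14 := hside b hb' hgb _ R.nY
    omega

end Pool.Agent.H538R3.QF
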