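import Pool.Agent.H538R3.QF.Defs

/-! Q5: dimension of the orthogonal space (helper152) -/

set_option autoImplicit false

open Finset

namespace Pool.Agent.H538R3.QF

theorem perp_bil {m : ℕ} (y v : Ix m → K) : bil y v = ∑ p : Ix m, y p.swap * v p := by
  unfold bil
  rw [← (Equiv.sumComm (Fin m) (Fin m)).sum_comp (fun p : Ix m => y p * v p.swap)]
  refine Finset.sum_congr rfl fun p _ => ?_
  simp [Equiv.sumComm_apply]

/-- TASK Q5 (QF/Perp.lean): the orthogonal space. -/
theorem perp {m : ℕ} {I : Type} [Fintype I] (u : I → Ix m → K) (hu : LinearIndependent K u) :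
    ∃ W : Submodule K (Ix m → K), Module.finrank K W + Fintype.card I = 2 * m ∧
      ∀ v, v ∈ W ↔ ∀ i, bil (u i) v = 0 := by
  classical
  let M : Matrix I (Ix m) K := Matrix.of fun i p => u i p.swap
  have hM : LinearIndependent K M.row := by
    have h1 := hu.map' (LinearMap.funLeft K K (fun p : Ix m => p.swap)) (by
      rw [LinearMap.ker_eq_bot]
      exact LinearMap.funLeft_injective_of_surjective K K _ (Sum.swap_rightInverse.surjective))
    exact h1
  have hr : M.rank = Fintype.card I := hM.rank_matrix
  refine ⟨LinearMap.ker M.mulVecLin, ?_, ?_⟩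
  · have h1 := LinearMap.finrank_range_add_finrank_ker M.mulVecLin
    have h2 : Module.finrank K (Ix m → K) = 2 * m := by
      rw [Module.finrank_fintype_fun_eq_card, Fintype.card_sum, Fintype.card_fin]
      ring
    have h3 : Module.finrank K (LinearMap.range M.mulVecLin) = Fintype.card I := hr
    rw [h3, h2] at h1
    rw [← h1]
    ring
  · intro v
    rw [LinearMap.mem_ker, Matrix.mulVecLin_apply]
    constructor
    · intro h i
      rw [perp_bil]
      exact congrFun h i
    · intro h
      funext i
      have := h i
      rw [perp_bil] at this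
      exact this

end Pool.Agent.H538R3.QF
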