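import Pool.Agent.H538R3.QF.CardIn
import Pool.Agent.H538R3.QF.Perp

/-!
# Quadratic identities over `F_2[X]`: orthogonal pairs of tuples
-/

set_option autoImplicit false

open Finset

namespace Pool.Agent.H538R3.QF

/-- Every finite family has a linearly independent subfamily with the same span. -/
theorem exists_indep_sub {σ V : Type} [Fintype σ] [AddCommGroup V] [Module K V] (f : σ → V) :
    ∃ I : Finset σ, LinearIndependent K (fun i : {i // i ∈ I} => f i) ∧
      ∀ s, f s ∈ Submodule.span K (Set.range (fun i : {i // i ∈ I} => f i)) := by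
  classical
  obtain ⟨b, -, -, hb2, hb3⟩ := exists_linearIndepOn_extension (K := K) (v := f)
    (s := (∅ : Set σ)) (t := Set.univ) (linearIndepOn_empty K f) (Set.subset_univ _)
  have hI : ∀ i, i ∈ b.toFinset ↔ i ∈ b := fun i => Set.mem_toFinset
  refine ⟨b.toFinset, ?_, ?_⟩
  · let e : {i // i ∈ b.toFinset} ≃ b := Equiv.subtypeEquivRight hI
    have h := (linearIndependent_equiv e (f := fun x : b => f x)).2 hb3
    exact h
  · intro s
    have h := hb2 ⟨s, Set.mem_univ _, rfl⟩
    refine Submodule.span_mono ?_ h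
    rintro _ ⟨i, hi, rfl⟩
    exact ⟨⟨i, (hI i).2 hi⟩, rfl⟩

open Classical in
/-- The pairs of tuples for which the family of the vectors in `I` spans the first tuple. -/
noncomputable def XI {m b : ℕ} {σ τ : Type} [Fintype σ] [Fintype τ] [DecidableEq σ]
    [DecidableEq τ] (I : Finset σ) : Finset ((σ → Co m b) × (τ → Co m b)) :=
  univ.filter (fun g => LinearIndependent K (fun i : {i // i ∈ I} => toK (g.1 i)) ∧
    (∀ s, toK (g.1 s) ∈ Submodule.span K (Set.range (fun i : {i // i ∈ I} => toK (g.1 i)))) ∧
    ∀ (i : {i // i ∈ I}) (t : τ), bil (toK (g.1 i)) (toK (g.2 t)) = 0)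

theorem exponent_le {m b d k : ℕ} (hk : k ≤ 2 * m) (hkd : k ≤ d) :
    (2 ^ (b * k)) ^ (d - k) * (2 ^ (b * (2 * m - k))) ^ d * (2 ^ (b * (2 * m))) ^ k ≤
      2 ^ (b * (2 * m * d) + b * (2 * m) ^ 2) := by
  rw [← pow_mul, ← pow_mul, ← pow_mul, ← pow_add, ← pow_add]
  apply Nat.pow_le_pow_right (by norm_num)
  obtain ⟨r, rfl⟩ := Nat.exists_eq_add_of_le hkd
  obtain ⟨q, hq⟩ := Nat.exists_eq_add_of_le hk
  rw [hq]
  simp only [Nat.add_sub_cancel_left]
  nlinarith [Nat.zero_le (b * q * k), Nat.zero_le (b * q * q), Nat.zero_le (b * k * k)]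

theorem card_XI {m b d : ℕ} {σ τ : Type} [Fintype σ] [Fintype τ] [DecidableEq σ]
    [DecidableEq τ] (hσ : Fintype.card σ = d) (hτ : Fintype.card τ = d) (I : Finset σ) :
    (XI (m := m) (b := b) (τ := τ) I).card ≤ 2 ^ (b * (2 * m * d) + b * (2 * m) ^ 2) := by
  classical
  set k := I.card with hk
  have hkd : k ≤ d := by
    rw [← hσ]; exact Finset.card_le_univ I
  by_cases h2 : k ≤ 2 * m
  swap
  · -- there are no linearly independent families
    have : XI (m := m) (b := b) (τ := τ) I = ∅ := by
      rw [Finset.eq_empty_iff_forall_notMem]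
      intro g hg
      have hg' := (Finset.mem_filter.1 hg).2.1
      have := hg'.fintype_card_le_finrank
      rw [Module.finrank_fintype_fun_eq_card] at this
      simp only [Fintype.card_coe, Fintype.card_sum, Fintype.card_fin] at this
      omega
    rw [this]; simp
  have hcardCo : Fintype.card (Co m b) = 2 ^ (b * (2 * m)) := by
    simp only [Co, Fintype.card_fun, ZMod.card, Fintype.card_fin, Fintype.card_sum]
    rw [← pow_mul]
    congr 1; ring
  have key := Finset.card_le_mul_card_image_of_maps_to
    (s := XI (m := m) (b := b) (τ := τ) I)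
    (t := (univ : Finset ({i // i ∈ I} → Co m b)))
    (f := fun g => fun i : {i // i ∈ I} => g.1 i) (fun _ _ => Finset.mem_univ _)
    ((2 ^ (b * k)) ^ (d - k) * (2 ^ (b * (2 * m - k))) ^ d) ?_
  · refine key.trans ?_
    rw [Finset.card_univ, Fintype.card_fun, hcardCo, Fintype.card_coe, ← hk]
    exact exponent_le h2 hkd
  intro u0 _
  by_cases hu : LinearIndependent K (fun i => toK (u0 i))
  swap
  · have : (XI (m := m) (b := b) (τ := τ) I).filter
        (fun g => (fun i : {i // i ∈ I} => g.1 i) = u0) = ∅ := by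
      rw [Finset.eq_empty_iff_forall_notMem]
      intro g hg
      have hg1 := (Finset.mem_filter.1 hg).1
      have hg2 := (Finset.mem_filter.1 hg).2
      apply hu
      have h := (Finset.mem_filter.1 hg1).2.1
      rw [← hg2]
      exact h
    rw [this]; simp
  obtain ⟨W, hW1, hW2⟩ := perp (fun i => toK (u0 i)) hu
  rw [Fintype.card_coe, ← hk] at hW1
  set U : Submodule K (Ix m → K) := Submodule.span K (Set.range (fun i => toK (u0 i))) with hU
  have hUk : Module.finrank K U = k := by
    rw [hU, finrank_span_eq_card hu, Fintype.card_coe]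
  let A : σ → Finset (Co m b) := fun s =>
    if h : s ∈ I then {u0 ⟨s, h⟩} else univ.filter (fun y : Co m b => toK y ∈ U)
  let B : τ → Finset (Co m b) := fun _ => univ.filter (fun y : Co m b => toK y ∈ W)
  have hsub : (XI (m := m) (b := b) (τ := τ) I).filter
      (fun g => (fun i : {i // i ∈ I} => g.1 i) = u0) ⊆
      (Fintype.piFinset A) ×ˢ (Fintype.piFinset B) := by
    intro g hg
    have hg1 := (Finset.mem_filter.1 hg).1
    have hg2 := (Finset.mem_filter.1 hg).2
    obtain ⟨-, h3, h4⟩ := (Finset.mem_filter.1 hg1).2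
    have hgi : ∀ i : {i // i ∈ I}, g.1 i = u0 i := fun i => congrFun hg2 i
    rw [Finset.mem_product, Fintype.mem_piFinset, Fintype.mem_piFinset]
    refine ⟨fun s => ?_, fun t => ?_⟩
    · by_cases hs : s ∈ I
      · simp only [A, hs, dite_true, Finset.mem_singleton]
        exact hgi ⟨s, hs⟩
      · simp only [A, hs, dite_false, Finset.mem_filter, Finset.mem_univ, true_and]
        have := h3 s
        rw [hU]
        simpa only [hgi] using this
    · simp only [B, Finset.mem_filter, Finset.mem_univ, true_and]
      rw [hW2]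
      intro i
      have := h4 i t
      rwa [hgi] at this
  refine (Finset.card_le_card hsub).trans ?_
  rw [Finset.card_product, Fintype.card_piFinset, Fintype.card_piFinset]
  apply Nat.mul_le_mul
  · have h1 : ∀ s, (A s).card ≤ if s ∈ I then 1 else 2 ^ (b * k) := by
      intro s
      by_cases hs : s ∈ I
      · simp [A, hs]
      · simp only [A, hs, dite_false, if_false]
        have := card_in (b := b) U
        rw [hUk] at this
        convert this
    refine (Finset.prod_le_prod' (fun s _ => h1 s)).trans ?_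
    rw [Finset.prod_ite, Finset.prod_const_one, one_mul, Finset.prod_const]
    have : (univ.filter (fun s : σ => s ∉ I)).card = d - k := by
      rw [← hσ, hk, ← Finset.card_compl]
      congr 1
      ext s; simp
    rw [this]
  · have h1 : ∀ t, (B t).card ≤ 2 ^ (b * (2 * m - k)) := by
      intro t
      have := card_in (b := b) W
      have hWk : Module.finrank K W = 2 * m - k := by omega
      rw [hWk] at this
      simp only [B]
      convert this
    refine (Finset.prod_le_prod' (fun t _ => h1 t)).trans ?_
    rw [Finset.prod_const, Finset.card_univ, hτ]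

open Classical in
/-- Orthogonal pairs of tuples: TASK Q6. -/
theorem pairs_card {m b d : ℕ} {σ τ : Type} [Fintype σ] [Fintype τ] [DecidableEq σ]
    [DecidableEq τ] (hσ : Fintype.card σ = d) (hτ : Fintype.card τ = d) :
    (univ.filter (fun g : (σ → Co m b) × (τ → Co m b) =>
      ∀ s t, bil (toK (g.1 s)) (toK (g.2 t)) = 0)).card ≤
      2 ^ d * 2 ^ (b * (2 * m * d) + b * (2 * m) ^ 2) := by
  have hsub : (univ.filter (fun g : (σ → Co m b) × (τ → Co m b) =>
      ∀ s t, bil (toK (g.1 s)) (toK (g.2 t)) = 0)) ⊆
      (univ : Finset (Finset σ)).biUnion (fun I => XI (m := m) (b := b) (τ := τ) I) := by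
    intro g hg
    have hg' := (Finset.mem_filter.1 hg).2
    obtain ⟨I, h1, h2⟩ := exists_indep_sub (fun s => toK (g.1 s))
    rw [Finset.mem_biUnion]
    refine ⟨I, Finset.mem_univ _, ?_⟩
    unfold XI
    rw [Finset.mem_filter]
    exact ⟨Finset.mem_univ _, h1, h2, fun i t => hg' i t⟩
  refine (Finset.card_le_card hsub).trans ?_
  refine (Finset.card_biUnion_le_card_mul _ _ _ (fun I _ => card_XI hσ hτ I)).trans ?_
  rw [Finset.card_univ, Fintype.card_finset, hσ]

end Pool.Agent.H538R3.QF
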