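import Pool.Agent.H538R3.QF.Defs
import Pool.Agent.H554R2.Sem.Defs
import Pool.Agent.H554R2.Coin.Defs
import Pool.Agent.H554R2.Lin.Defs

/-!
# Quadratic identities over `F_2[X]`: statements of the tasks (stubs)
-/

set_option autoImplicit false

open Finset

namespace Pool.Agent.H538R3.QF.Stubs

open Pool.Agent.H554R2.Sem Pool.Agent.H554R2.Coin

/-- TASK Q1 (QF/Pivot.lean): pivots. -/
theorem pivot {F ι : Type} [Field F] [Fintype ι] [DecidableEq ι] (W : Submodule F (ι → F)) :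
    ∃ J : Finset ι, J.card = Module.finrank F W ∧ ∀ y ∈ W, (∀ j ∈ J, y j = 0) → y = 0 := by
  sorry

/-- TASK Q2 (QF/Echelon.lean): a large set of vectors has differences in echelon form. -/
theorem echelon {n : ℕ} (d : ℕ) (D : Finset (Fin n)) (X : Finset (Fin n → ZMod 2))
    (hX : ∀ x ∈ X, ∀ i, i ∉ D → x i = 0) (hc : 2 ^ d ≤ X.card) :
    ∃ S : Finset (Fin n), S ⊆ D ∧ S.card = d ∧
      ∃ a : {i // i ∈ S} → {k // k ∈ D \ S} → ZMod 2, ∀ i : {i // i ∈ S},
        ext D S (a i) i ∈ Submodule.span (ZMod 2)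
          {z : Fin n → ZMod 2 | ∃ x ∈ X, ∃ x' ∈ X, z = x - x'} := by
  sorry

/-- TASK Q3 (QF/GoodOf.lean). -/
theorem good_of {n m b : ℕ} (w : Fin n → Co m b) (d : ℕ)
    (h : ∀ (D S T : Finset (Fin n)) (a : {i // i ∈ S} → {k // k ∈ D \ S} → ZMod 2)
      (a' : {j // j ∈ T} → {k // k ∈ Dᶜ \ T} → ZMod 2),
      S ⊆ D → T ⊆ Dᶜ → S.card = d → T.card = d → ¬ Conf w D S T a a') : Good w d := by
  sorry

open Classical in
/-- TASK Q4 (QF/CardIn.lean): the number of vectors of polynomials in a subspace. -/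
theorem card_in {m b : ℕ} (W : Submodule K (Ix m → K)) :
    (univ.filter (fun y : Co m b => toK y ∈ W)).card ≤ 2 ^ (b * Module.finrank K W) := by
  sorry

/-- TASK Q5 (QF/Perp.lean): the orthogonal space. -/
theorem perp {m : ℕ} {I : Type} [Fintype I] (u : I → Ix m → K) (hu : LinearIndependent K u) :
    ∃ W : Submodule K (Ix m → K), Module.finrank K W + Fintype.card I = 2 * m ∧
      ∀ v, v ∈ W ↔ ∀ i, bil (u i) v = 0 := by
  sorry

open Classical in
/-- TASK Q6 (QF/Pairs.lean): orthogonal pairs of tuples. -/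
theorem pairs_card {m b d : ℕ} {σ τ : Type} [Fintype σ] [Fintype τ] [DecidableEq σ]
    [DecidableEq τ] (hσ : Fintype.card σ = d) (hτ : Fintype.card τ = d) :
    (univ.filter (fun g : (σ → Co m b) × (τ → Co m b) =>
      ∀ s t, bil (toK (g.1 s)) (toK (g.2 t)) = 0)).card ≤
      2 ^ d * 2 ^ (b * (2 * m * d) + b * (2 * m) ^ 2) := by
  sorry

open Classical in
/-- TASK Q7 (QF/ConfCard.lean): the number of bad maps for one configuration. -/
theorem conf_card {n m b d : ℕ} (D S T : Finset (Fin n)) (hS : S ⊆ D) (hT : T ⊆ Dᶜ)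
    (hSd : S.card = d) (hTd : T.card = d) (a : {i // i ∈ S} → {k // k ∈ D \ S} → ZMod 2)
    (a' : {j // j ∈ T} → {k // k ∈ Dᶜ \ T} → ZMod 2) :
    (univ.filter (fun w : Fin n → Co m b => Conf w D S T a a')).card ≤
      (2 ^ (b * (2 * m))) ^ (n - 2 * d) * (2 ^ d * 2 ^ (b * (2 * m * d) + b * (2 * m) ^ 2)) := by
  sorry

/-- TASK Q8 (QF/Exists.lean): union bound. -/
theorem exists_good {n m b d : ℕ} (hb : n ≤ 2 * m * b)
    (hd : 3 * n + d + b * (2 * m) ^ 2 < 2 * d ^ 2) :
    ∃ w : Fin n → Co m b, ∀ (D S T : Finset (Fin n))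
      (a : {i // i ∈ S} → {k // k ∈ D \ S} → ZMod 2)
      (a' : {j // j ∈ T} → {k // k ∈ Dᶜ \ T} → ZMod 2),
      S ⊆ D → T ⊆ Dᶜ → S.card = d → T.card = d → ¬ Conf w D S T a a' := by
  sorry

open Classical in
/-- TASK Q9 (QF/NoRect.lean): no rectangles. -/
theorem noRect {n m b d : ℕ} (w : Fin n → Co m b) (hw : Good w d) (c : Polynomial (ZMod 2)) :
    NoRect (univ.filter (fun x : Pt n => fn w c x = true)) (2 ^ d) := by
  sorry

/-- TASK Q10 (QF/NoRect.lean): no embedded rectangles. -/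
theorem noEmbedded {n m b d : ℕ} (w : Fin n → Co m b) (hw : Good w d) (c : Polynomial (ZMod 2))
    (C : Finset (Pt n)) (hC : ∀ x ∈ C, fn w c x = true) {a b' g : ℕ}
    (R : Pool.Agent.H554R2.Lin.Rect C a b' g) (h : 2 ^ d ≤ R.X.card) : R.Y.card < 2 ^ d := by
  sorry

open Classical in
/-- TASK Q11 (QF/Value.lean): the most popular value. -/
theorem exists_value {n m b : ℕ} (hn : 1 ≤ n) (hb : 1 ≤ b) (w : Fin n → Co m b) :
    ∃ c : Polynomial (ZMod 2), c.natDegree < 2 * b ∧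
      2 ^ n ≤ 2 ^ (2 * b + 1) * (univ.filter (fun x : Pt n => fn w c x = true)).card := by
  sorry

/-- TASK Q12 (QF/Value.lean): the function changes if a bit is changed. -/
theorem fn_flip {n m b : ℕ} (w : Fin n → Co m b) (c : Polynomial (ZMod 2)) (x : Pt n)
    (i : Fin n) (h : fn w c x = true) : fn w c (Pool.Agent.H554R2.Sem.flip x i) ≠ true := by
  sorry

open Classical in
/-- TASK Q13 (QF/Prog.lean): the ordered read-once program for one point `α`. -/
theorem program {n m b : ℕ} (w : Fin n → Co m b) (c : Polynomial (ZMod 2)) (L : Type) [Field L]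
    [Fintype L] [Algebra (ZMod 2) L] (α : L) :
    ∃ U : BP (Fin n) Bool, Fintype.card U.State = (n + 1) * (Fintype.card L ^ (2 * m) * 2) ∧
      ∀ x : Pt n, U.Comp x (List.finRange n)
        (decide (EvenW x ∧ quad (fun p => Polynomial.aeval α (pol (lin w (vec x) p))) =
          Polynomial.aeval α c)) := by
  sorry

open Classical in
/-- TASK Q14 (QF/Gap.lean): few points are roots. -/
theorem gap {n m b : ℕ} (hb : 1 ≤ b) (w : Fin n → Co m b) (c : Polynomial (ZMod 2))
    (hc : c.natDegree < 2 * b) (L : Type) [Field L] [Fintype L] [Algebra (ZMod 2) L] (x : Pt n)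
    (hx : fn w c x = false) :
    (univ.filter (fun α : L => EvenW x ∧ quad (fun p => Polynomial.aeval α
      (pol (lin w (vec x) p))) = Polynomial.aeval α c)).card < 2 * b := by
  sorry

/-- TASK Q15 (QF/Easy.lean): randomised programs with one-sided error. -/
theorem easy {n m b : ℕ} (hb : 1 ≤ b) (w : Fin n → Co m b) (c : Polynomial (ZMod 2))
    (hc : c.natDegree < 2 * b) (t : ℕ) :
    ∃ (k : ℕ) (U : (Fin k → Bool) → BP (Fin n) Bool) (v : (Fin k → Bool) → Pt n → Bool),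
      2 ^ k ≤ 8 * b * 2 ^ t ∧
      (∀ r, Fintype.card (U r).State ≤ (n + 1) * ((8 * b * 2 ^ t) ^ (2 * m) * 2)) ∧
      (∀ r x, (U r).Comp x (List.finRange n) (v r x)) ∧
      (∀ r x, fn w c x = true → v r x = true) ∧
      ∀ x, fn w c x = false → 2 ^ t * Nat.card {r // v r x = true} ≤ 2 ^ k := by
  sorry

/-- TASK Q16 (QF/Det.lean): a deterministic program. -/
theorem det_program {n m b : ℕ} (hb : 1 ≤ b) (w : Fin n → Co m b) (c : Polynomial (ZMod 2))
    (hc : c.natDegree < 2 * b) :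
    ∃ P : BP (Fin n) Bool,
      Fintype.card P.State ≤ 16 * b * ((n + 1) * ((16 * b) ^ (2 * m) * 2)) + 1 ∧
      ∀ x, ∃ l : List (Fin n), (∀ i, l.count i ≤ 16 * b) ∧ P.Comp x l (fn w c x) := by
  sorry

end Pool.Agent.H538R3.QF.Stubs
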